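import Mathlib

set_option linter.all false

/-!
# The center of the positive part of `U_q(sl_2^)` is trivial
-/

namespace Pool.Agent.Results.MP_cafee0_al.CenterTrivial

open scoped TensorProduct

universe u

/-- The `q`-Serre expression `a^3 b - [3] a^2 b a + [3] a b a^2 - b a^3`, where
`[3] = q^2 + 1 + q^{-2}`. -/
def serre {K : Type u} [Field K] (q : K) {B : Type*} [Ring B] [Algebra K B] (a b : B) : B :=
  a ^ 3 * b - (q ^ 2 + 1 + (q⁻¹) ^ 2) • (a ^ 2 * b * a)
    + (q ^ 2 + 1 + (q⁻¹) ^ 2) • (a * b * a ^ 2) - b * a ^ 3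

/-- The two defining relations of `U^+`. The generator `A` is `FreeAlgebra.ι K true`
and the generator `A^*` is `FreeAlgebra.ι K false`. -/
inductive SerreRel (K : Type u) [Field K] (q : K) :
    FreeAlgebra K Bool → FreeAlgebra K Bool → Prop
  | first : SerreRel K q (serre q (FreeAlgebra.ι K true) (FreeAlgebra.ι K false)) 0
  | second : SerreRel K q (serre q (FreeAlgebra.ι K false) (FreeAlgebra.ι K true)) 0

/-- The algebra `U^+`: generated by `A = gen true`, `A^* = gen false`,
subject to the two `q`-Serre relations. -/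
def U (K : Type u) [Field K] (q : K) : Type u := RingQuot (SerreRel K q)

section
variable {K : Type u} [Field K] {q : K}

instance : Ring (U K q) := inferInstanceAs (Ring (RingQuot (SerreRel K q)))
instance : Algebra K (U K q) := inferInstanceAs (Algebra K (RingQuot (SerreRel K q)))

/-- the quotient map -/
def mk (K : Type u) [Field K] (q : K) : FreeAlgebra K Bool →ₐ[K] U K q :=
  RingQuot.mkAlgHom K (SerreRel K q)

/-- the generators: `gen true = A`, `gen false = A^*` -/
def gen (K : Type u) [Field K] (q : K) (i : Bool) : U K q := mk K q (FreeAlgebra.ι K i)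

theorem map_serre {B C : Type*} [Ring B] [Algebra K B] [Ring C] [Algebra K C] (f : B →ₐ[K] C)
    (a b : B) : f (serre q a b) = serre q (f a) (f b) := by
  simp [serre]

theorem gen_serre (i : Bool) : serre q (gen K q i) (gen K q (!i)) = 0 := by
  have : mk K q (serre q (FreeAlgebra.ι K i) (FreeAlgebra.ι K (!i))) = mk K q 0 := by
    cases i
    · exact RingQuot.mkAlgHom_rel K (SerreRel.second (K := K) (q := q))
    · exact RingQuot.mkAlgHom_rel K (SerreRel.first (K := K) (q := q))
  rw [map_zero, map_serre] at this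
  exact this

theorem lift_aux {B : Type*} [Ring B] [Algebra K B] (f : Bool → B)
    (hf : ∀ i, serre q (f i) (f (!i)) = 0) (x y : FreeAlgebra K Bool) (h : SerreRel K q x y) :
    FreeAlgebra.lift K f x = FreeAlgebra.lift K f y := by
  rcases h with _ | _
  · rw [map_serre, map_zero, FreeAlgebra.lift_ι_apply, FreeAlgebra.lift_ι_apply]
    exact hf true
  · rw [map_serre, map_zero, FreeAlgebra.lift_ι_apply, FreeAlgebra.lift_ι_apply]
    exact hf false

/-- universal property -/
def lift {B : Type*} [Ring B] [Algebra K B] (f : Bool → B)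
    (hf : ∀ i, serre q (f i) (f (!i)) = 0) : U K q →ₐ[K] B :=
  RingQuot.liftAlgHom K ⟨FreeAlgebra.lift K f, lift_aux f hf⟩

theorem lift_gen {B : Type*} [Ring B] [Algebra K B] (f : Bool → B)
    (hf : ∀ i, serre q (f i) (f (!i)) = 0) (i : Bool) : lift f hf (gen K q i) = f i := by
  have h := RingQuot.liftAlgHom_mkAlgHom_apply K (s := SerreRel K q) (FreeAlgebra.lift K f)
    (lift_aux f hf) (FreeAlgebra.ι K i)
  exact h.trans (FreeAlgebra.lift_ι_apply f i)

theorem mk_surj : Function.Surjective (mk K q) :=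
  RingQuot.mkAlgHom_surjective K _

/-- right induction -/
theorem ind_right (S : Submodule K (U K q)) (h1 : (1 : U K q) ∈ S)
    (hm : ∀ u ∈ S, ∀ i, u * gen K q i ∈ S) : S = ⊤ := by
  have key : ∀ t : FreeAlgebra K Bool, ∀ s ∈ S, s * mk K q t ∈ S := by
    intro t
    induction t using FreeAlgebra.induction with
    | grade0 r =>
      intro s hs
      rw [AlgHom.commutes, ← Algebra.commutes, ← Algebra.smul_def]
      exact S.smul_mem r hs
    | grade1 i => intro s hs; exact hm s hs i
    | mul a b ha hb =>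
      intro s hs
      rw [map_mul, ← mul_assoc]
      exact hb _ (ha s hs)
    | add a b ha hb =>
      intro s hs
      rw [map_add, mul_add]
      exact S.add_mem (ha s hs) (hb s hs)
  rw [eq_top_iff]
  intro u _
  obtain ⟨t, rfl⟩ := mk_surj (K := K) (q := q) u
  have := key t 1 h1
  rwa [one_mul] at this

/-- left induction -/
theorem ind_left (S : Submodule K (U K q)) (h1 : (1 : U K q) ∈ S)
    (hm : ∀ u ∈ S, ∀ i, gen K q i * u ∈ S) : S = ⊤ := by
  have key : ∀ t : FreeAlgebra K Bool, ∀ s ∈ S, mk K q t * s ∈ S := by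
    intro t
    induction t using FreeAlgebra.induction with
    | grade0 r =>
      intro s hs
      rw [AlgHom.commutes, ← Algebra.smul_def]
      exact S.smul_mem r hs
    | grade1 i => intro s hs; exact hm s hs i
    | mul a b ha hb =>
      intro s hs
      rw [map_mul, mul_assoc]
      exact ha _ (hb s hs)
    | add a b ha hb =>
      intro s hs
      rw [map_add, add_mul]
      exact S.add_mem (ha s hs) (hb s hs)
  rw [eq_top_iff]
  intro u _
  obtain ⟨t, rfl⟩ := mk_surj (K := K) (q := q) u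
  have := key t 1 h1
  rwa [mul_one] at this

/-! ## Scalings -/

theorem serre_smul {B : Type*} [Ring B] [Algebra K B] (a b : B) (c d : K) (h : serre q a b = 0) :
    serre q (c • a) (d • b) = 0 := by
  have : serre q (c • a) (d • b) = (c ^ 3 * d) • serre q a b := by
    unfold serre
    simp only [smul_pow, smul_mul_assoc, mul_smul_comm, smul_sub, smul_add, smul_smul]
    match_scalars <;> ring
  rw [this, h, smul_zero]

/-- scaling automorphisms -/
def sc (c : Bool → K) : U K q →ₐ[K] U K q :=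
  lift (fun i => c i • gen K q i) (fun i => serre_smul _ _ _ _ (gen_serre i))

@[simp] theorem sc_gen (c : Bool → K) (i : Bool) : sc c (gen K q i) = c i • gen K q i :=
  lift_gen _ _ _

/-! ## Skew derivations -/

section matrices
variable {B : Type*} [Ring B] [Algebra K B]

theorem smul_inv_cancel' (hq : q ≠ 0) : q ^ 2 * (q⁻¹) ^ 2 = 1 := by
  field_simp

theorem matL1 (hq : q ≠ 0) (x y : B) (h : serre q x y = 0) :
    serre q (!![q ^ 2 • x, 1; 0, x]) (!![(q⁻¹) ^ 2 • y, 0; 0, y]) = 0 := by
  have h0 := serre_smul x y (q ^ 2) ((q⁻¹) ^ 2) h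
  have e : serre q (!![q ^ 2 • x, 1; 0, x]) (!![(q⁻¹) ^ 2 • y, 0; 0, y]) =
    !![serre q (q ^ 2 • x) ((q⁻¹) ^ 2 • y), 0; 0, serre q x y] := by
    ext i j
    fin_cases i <;> fin_cases j <;>
      simp [serre, pow_succ, Matrix.mul_apply, Fin.sum_univ_two, mul_add, add_mul, smul_smul,
        mul_assoc]
    all_goals (match_scalars <;> field_simp <;> ring)
  rw [e, h0, h]
  ext i j
  fin_cases i <;> fin_cases j <;> simp

theorem matL2 (hq : q ≠ 0) (x y : B) (h : serre q y x = 0) :
    serre q (!![(q⁻¹) ^ 2 • y, 0; 0, y]) (!![q ^ 2 • x, 1; 0, x]) = 0 := by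
  have h0 := serre_smul y x ((q⁻¹) ^ 2) (q ^ 2) h
  have e : serre q (!![(q⁻¹) ^ 2 • y, 0; 0, y]) (!![q ^ 2 • x, 1; 0, x]) =
    !![serre q ((q⁻¹) ^ 2 • y) (q ^ 2 • x), 0; 0, serre q y x] := by
    ext i j
    fin_cases i <;> fin_cases j <;>
      simp [serre, pow_succ, Matrix.mul_apply, Fin.sum_univ_two, mul_add, add_mul, smul_smul,
        mul_assoc]
    all_goals (match_scalars <;> field_simp <;> ring)
  rw [e, h0, h]
  ext i j
  fin_cases i <;> fin_cases j <;> simp

theorem matR1 (hq : q ≠ 0) (x y : B) (h : serre q x y = 0) :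
    serre q (!![x, 1; 0, q ^ 2 • x]) (!![y, 0; 0, (q⁻¹) ^ 2 • y]) = 0 := by
  have h0 := serre_smul x y (q ^ 2) ((q⁻¹) ^ 2) h
  have e : serre q (!![x, 1; 0, q ^ 2 • x]) (!![y, 0; 0, (q⁻¹) ^ 2 • y]) =
    !![serre q x y, 0; 0, serre q (q ^ 2 • x) ((q⁻¹) ^ 2 • y)] := by
    ext i j
    fin_cases i <;> fin_cases j <;>
      simp [serre, pow_succ, Matrix.mul_apply, Fin.sum_univ_two, mul_add, add_mul, smul_smul,
        mul_assoc]
    all_goals (match_scalars <;> field_simp <;> ring)
  rw [e, h0, h]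
  ext i j
  fin_cases i <;> fin_cases j <;> simp

theorem matR2 (hq : q ≠ 0) (x y : B) (h : serre q y x = 0) :
    serre q (!![y, 0; 0, (q⁻¹) ^ 2 • y]) (!![x, 1; 0, q ^ 2 • x]) = 0 := by
  have h0 := serre_smul y x ((q⁻¹) ^ 2) (q ^ 2) h
  have e : serre q (!![y, 0; 0, (q⁻¹) ^ 2 • y]) (!![x, 1; 0, q ^ 2 • x]) =
    !![serre q y x, 0; 0, serre q ((q⁻¹) ^ 2 • y) (q ^ 2 • x)] := by
    ext i j
    fin_cases i <;> fin_cases j <;>
      simp [serre, pow_succ, Matrix.mul_apply, Fin.sum_univ_two, mul_add, add_mul, smul_smul,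
        mul_assoc]
    all_goals (match_scalars <;> field_simp <;> ring)
  rw [e, h0, h]
  ext i j
  fin_cases i <;> fin_cases j <;> simp

end matrices

theorem lin_ext {M : Type*} [AddCommGroup M] [Module K M] (f g : U K q →ₗ[K] M)
    (h1 : f 1 = g 1) (hm : ∀ u, f u = g u → ∀ i, f (u * gen K q i) = g (u * gen K q i))
    (u : U K q) : f u = g u := by
  have h := ind_right (LinearMap.eqLocus f g) h1 hm
  have : u ∈ LinearMap.eqLocus f g := h ▸ Submodule.mem_top
  exact this

/-- `pp q i j = q^2` if `i = j` and `q^{-2}` otherwise -/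
def pp (q : K) (i j : Bool) : K := if i = j then q ^ 2 else (q⁻¹) ^ 2

@[simp] theorem pp_self (i : Bool) : pp q i i = q ^ 2 := by simp [pp]
@[simp] theorem pp_not (i : Bool) : pp q i (!i) = (q⁻¹) ^ 2 := by simp [pp]
@[simp] theorem pp_not' (i : Bool) : pp q (!i) i = (q⁻¹) ^ 2 := by simp [pp]

theorem pp_comm (i j : Bool) : pp q i j = pp q j i := by
  unfold pp; cases i <;> cases j <;> rfl

theorem pp_mul [NeZero q] (i j : Bool) : pp q i j * pp q (!i) j = 1 := by
  have hq : q ≠ 0 := NeZero.ne q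
  cases i <;> cases j <;> simp [pp] <;> field_simp

/-- the automorphisms `tau i` -/
def tau (i : Bool) : U K q →ₐ[K] U K q := sc (pp q i)

theorem tau_gen (i j : Bool) : tau i (gen K q j) = pp q i j • gen K q j := sc_gen _ _

def Lf (K : Type u) [Field K] (q : K) (i j : Bool) : Matrix (Fin 2) (Fin 2) (U K q) :=
  !![pp q i j • gen K q j, if i = j then 1 else 0; 0, gen K q j]

def Rf (K : Type u) [Field K] (q : K) (i j : Bool) : Matrix (Fin 2) (Fin 2) (U K q) :=
  !![gen K q j, if i = j then 1 else 0; 0, pp q i j • gen K q j]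

theorem Lf_serre [NeZero q] (i j : Bool) : serre q (Lf K q i j) (Lf K q i (!j)) = 0 := by
  have hq : q ≠ 0 := NeZero.ne q
  by_cases h : i = j
  · subst h
    have h1 := matL1 hq _ _ (gen_serre (K := K) (q := q) i)
    simpa [Lf] using h1
  · obtain rfl : j = !i := by cases i <;> cases j <;> simp_all
    have h1 := matL2 hq (gen K q i) (gen K q (!i)) (by
      have := gen_serre (K := K) (q := q) (!i)
      rwa [Bool.not_not] at this)
    simpa [Lf] using h1

theorem Rf_serre [NeZero q] (i j : Bool) : serre q (Rf K q i j) (Rf K q i (!j)) = 0 := by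
  have hq : q ≠ 0 := NeZero.ne q
  by_cases h : i = j
  · subst h
    have h1 := matR1 hq _ _ (gen_serre (K := K) (q := q) i)
    simpa [Rf] using h1
  · obtain rfl : j = !i := by cases i <;> cases j <;> simp_all
    have h1 := matR2 hq (gen K q i) (gen K q (!i)) (by
      have := gen_serre (K := K) (q := q) (!i)
      rwa [Bool.not_not] at this)
    simpa [Rf] using h1

section
variable [NeZero q]

def Lm (i : Bool) : U K q →ₐ[K] Matrix (Fin 2) (Fin 2) (U K q) := lift (Lf K q i) (Lf_serre i)
def Rm (i : Bool) : U K q →ₐ[K] Matrix (Fin 2) (Fin 2) (U K q) := lift (Rf K q i) (Rf_serre i)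

theorem Lm_gen (i j : Bool) : Lm i (gen K q j) = Lf K q i j := lift_gen _ _ _
theorem Rm_gen (i j : Bool) : Rm i (gen K q j) = Rf K q i j := lift_gen _ _ _

theorem Lm_10 (i : Bool) (u : U K q) : Lm i u 1 0 = 0 := by
  refine lin_ext ((Matrix.entryLinearMap K (U K q) 1 0) ∘ₗ (Lm i).toLinearMap) 0 ?_ ?_ u
  · simp
  · intro u hu j
    simp only [LinearMap.comp_apply, AlgHom.toLinearMap_apply, Matrix.entryLinearMap_apply,
      LinearMap.zero_apply] at hu ⊢
    rw [map_mul, Matrix.mul_apply, Fin.sum_univ_two, hu, Lm_gen]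
    simp [Lf]

theorem Lm_00 (i : Bool) (u : U K q) : Lm i u 0 0 = tau i u := by
  refine lin_ext ((Matrix.entryLinearMap K (U K q) 0 0) ∘ₗ (Lm i).toLinearMap)
    (tau i).toLinearMap ?_ ?_ u
  · simp
  · intro u hu j
    simp only [LinearMap.comp_apply, AlgHom.toLinearMap_apply, Matrix.entryLinearMap_apply] at hu ⊢
    rw [map_mul, Matrix.mul_apply, Fin.sum_univ_two, hu, Lm_gen, map_mul, tau_gen]
    simp [Lf]

theorem Lm_11 (i : Bool) (u : U K q) : Lm i u 1 1 = u := by
  refine lin_ext ((Matrix.entryLinearMap K (U K q) 1 1) ∘ₗ (Lm i).toLinearMap)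
    LinearMap.id ?_ ?_ u
  · simp
  · intro u hu j
    simp only [LinearMap.comp_apply, AlgHom.toLinearMap_apply, Matrix.entryLinearMap_apply,
      LinearMap.id_apply] at hu ⊢
    rw [map_mul, Matrix.mul_apply, Fin.sum_univ_two, hu, Lm_gen, Lm_10]
    simp [Lf]

theorem Rm_10 (i : Bool) (u : U K q) : Rm i u 1 0 = 0 := by
  refine lin_ext ((Matrix.entryLinearMap K (U K q) 1 0) ∘ₗ (Rm i).toLinearMap) 0 ?_ ?_ u
  · simp
  · intro u hu j
    simp only [LinearMap.comp_apply, AlgHom.toLinearMap_apply, Matrix.entryLinearMap_apply,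
      LinearMap.zero_apply] at hu ⊢
    rw [map_mul, Matrix.mul_apply, Fin.sum_univ_two, hu, Rm_gen]
    simp [Rf]

theorem Rm_11 (i : Bool) (u : U K q) : Rm i u 1 1 = tau i u := by
  refine lin_ext ((Matrix.entryLinearMap K (U K q) 1 1) ∘ₗ (Rm i).toLinearMap)
    (tau i).toLinearMap ?_ ?_ u
  · simp
  · intro u hu j
    simp only [LinearMap.comp_apply, AlgHom.toLinearMap_apply, Matrix.entryLinearMap_apply] at hu ⊢
    rw [map_mul, Matrix.mul_apply, Fin.sum_univ_two, hu, Rm_gen, Rm_10, map_mul, tau_gen]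
    simp [Rf]

theorem Rm_00 (i : Bool) (u : U K q) : Rm i u 0 0 = u := by
  refine lin_ext ((Matrix.entryLinearMap K (U K q) 0 0) ∘ₗ (Rm i).toLinearMap)
    LinearMap.id ?_ ?_ u
  · simp
  · intro u hu j
    simp only [LinearMap.comp_apply, AlgHom.toLinearMap_apply, Matrix.entryLinearMap_apply,
      LinearMap.id_apply] at hu ⊢
    rw [map_mul, Matrix.mul_apply, Fin.sum_univ_two, hu, Rm_gen]
    simp [Rf]

/-- left skew derivation -/
def l (i : Bool) : U K q →ₗ[K] U K q :=
  (Matrix.entryLinearMap K (U K q) 0 1) ∘ₗ (Lm i).toLinearMap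

/-- right skew derivation -/
def r (i : Bool) : U K q →ₗ[K] U K q :=
  (Matrix.entryLinearMap K (U K q) 0 1) ∘ₗ (Rm i).toLinearMap

theorem l_mul (i : Bool) (u v : U K q) : l i (u * v) = l i u * v + tau i u * l i v := by
  show Lm i (u * v) 0 1 = Lm i u 0 1 * v + tau i u * Lm i v 0 1
  rw [map_mul, Matrix.mul_apply, Fin.sum_univ_two, Lm_00, Lm_11, add_comm]

theorem r_mul (i : Bool) (u v : U K q) : r i (u * v) = u * r i v + r i u * tau i v := by
  show Rm i (u * v) 0 1 = u * Rm i v 0 1 + Rm i u 0 1 * tau i v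
  rw [map_mul, Matrix.mul_apply, Fin.sum_univ_two, Rm_00, Rm_11]

theorem l_gen (i j : Bool) : l i (gen K q j) = if i = j then 1 else 0 := by
  show Lm i (gen K q j) 0 1 = _
  rw [Lm_gen]
  simp [Lf]

theorem r_gen (i j : Bool) : r i (gen K q j) = if i = j then 1 else 0 := by
  show Rm i (gen K q j) 0 1 = _
  rw [Rm_gen]
  simp [Rf]

@[simp] theorem l_one (i : Bool) : l i (1 : U K q) = 0 := by
  show Lm i 1 0 1 = _
  simp

@[simp] theorem r_one (i : Bool) : r i (1 : U K q) = 0 := by
  show Rm i 1 0 1 = _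
  simp

theorem sc_sc (c d : Bool → K) (u : U K q) : sc c (sc d u) = sc (fun i => d i * c i) u := by
  refine lin_ext ((sc c).toLinearMap ∘ₗ (sc d).toLinearMap) (sc (fun i => d i * c i)).toLinearMap
    (by simp) ?_ u
  intro u hu j
  simp only [LinearMap.comp_apply, AlgHom.toLinearMap_apply] at hu ⊢
  rw [map_mul, map_mul, hu, map_mul, sc_gen, sc_gen, map_smul, sc_gen, smul_smul]

theorem sc_comm (c d : Bool → K) (u : U K q) : sc c (sc d u) = sc d (sc c u) := by
  rw [sc_sc, sc_sc]
  congr 2
  funext i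
  exact mul_comm _ _

theorem sc_one (u : U K q) : sc (fun _ => 1) u = u := by
  refine lin_ext (sc (fun _ => 1)).toLinearMap LinearMap.id (by simp) ?_ u
  intro u hu j
  simp only [LinearMap.id_apply, AlgHom.toLinearMap_apply] at hu ⊢
  rw [map_mul, hu, sc_gen, one_smul]

theorem tau_tau_not (i : Bool) (u : U K q) : tau i (tau (!i) u) = u := by
  unfold tau
  rw [sc_sc]
  conv_rhs => rw [← sc_one u]
  congr 2
  funext j
  have := pp_mul (q := q) i j
  rw [mul_comm]
  exact this

theorem tau_not_tau (i : Bool) (u : U K q) : tau (!i) (tau i u) = u := by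
  have := tau_tau_not (!i) u
  rwa [Bool.not_not] at this

theorem l_sc (i : Bool) (c : Bool → K) (u : U K q) : l i (sc c u) = c i • sc c (l i u) := by
  refine lin_ext (l i ∘ₗ (sc c).toLinearMap) (c i • ((sc c).toLinearMap ∘ₗ l i)) ?_ ?_ u
  · simp
  · intro u hu j
    simp only [LinearMap.comp_apply, AlgHom.toLinearMap_apply, LinearMap.smul_apply] at hu ⊢
    rw [map_mul, l_mul, hu, l_mul, l_gen, sc_gen, map_smul, l_gen, map_add, map_mul, map_mul, sc_gen]
    by_cases h : i = j
    · subst h
      have : tau i (sc c u) = sc c (tau i u) := sc_comm _ _ _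
      simp [this, smul_add]
    · simp [h, smul_comm (c j)]

theorem r_sc (i : Bool) (c : Bool → K) (u : U K q) : r i (sc c u) = c i • sc c (r i u) := by
  refine lin_ext (r i ∘ₗ (sc c).toLinearMap) (c i • ((sc c).toLinearMap ∘ₗ r i)) ?_ ?_ u
  · simp
  · intro u hu j
    simp only [LinearMap.comp_apply, AlgHom.toLinearMap_apply, LinearMap.smul_apply] at hu ⊢
    rw [map_mul, r_mul, hu, r_mul, r_gen, sc_gen, map_smul, r_gen, map_add, map_mul, map_mul,
      map_smul, tau_gen, map_smul, sc_gen]
    by_cases h : i = j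
    · subst h
      simp [smul_add, smul_smul, mul_comm]
    · simp [h, smul_smul, mul_comm, mul_left_comm]

theorem l_r (i j : Bool) (u : U K q) : l i (r j u) = r j (l i u) := by
  refine lin_ext (l i ∘ₗ r j) (r j ∘ₗ l i) (by simp) ?_ u
  intro u hu k
  simp only [LinearMap.comp_apply] at hu ⊢
  rw [r_mul, map_add, l_mul, l_mul, l_mul, map_add, r_mul, r_mul, hu, tau_gen, r_gen, map_smul,
    l_gen]
  by_cases hj : j = k
  · by_cases hi : i = k
    · subst hj; subst hi
      have : r i (tau i u) = pp q i i • tau i (r i u) := r_sc _ _ _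
      simp [this]
      abel
    · simp [hj, hi]
  · by_cases hi : i = k
    · subst hi
      have : r j (tau i u) = pp q i j • tau i (r j u) := r_sc _ _ _
      simp [this, hj, pp_comm i j]
    · simp [hj, hi]

/-- augmentation -/
def eps : U K q →ₐ[K] K := lift (fun _ => 0) (fun i => by simp [serre])

@[simp] theorem eps_gen (i : Bool) : eps (gen K q i) = 0 := lift_gen _ _ _

theorem eps_sc (c : Bool → K) (u : U K q) : eps (sc c u) = eps u := by
  refine lin_ext (eps.toLinearMap ∘ₗ (sc c).toLinearMap) eps.toLinearMap (by simp) ?_ u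
  intro u hu j
  simp only [LinearMap.comp_apply, AlgHom.toLinearMap_apply] at hu ⊢
  simp

theorem eps_l (i : Bool) (u : U K q) : eps (l i u) = eps (r i u) := by
  refine lin_ext (eps.toLinearMap ∘ₗ l i) (eps.toLinearMap ∘ₗ r i) (by simp) ?_ u
  intro u hu j
  simp only [LinearMap.comp_apply, AlgHom.toLinearMap_apply] at hu ⊢
  rw [l_mul, r_mul, map_add, map_add, map_mul, map_mul, map_mul, map_mul, l_gen, r_gen]
  have : eps (tau i u) = eps u := eps_sc _ _
  by_cases h : i = j
  · simp [h, this, tau_gen]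
    rw [← h, this]
  · simp [h, tau_gen]

/-- the operators `F k = tau_k^{-1} r_k - l_k` -/
def F (k : Bool) : U K q →ₗ[K] U K q := (tau (!k)).toLinearMap ∘ₗ r k - l k

theorem F_apply (k : Bool) (u : U K q) : F k u = tau (!k) (r k u) - l k u := rfl

@[simp] theorem F_one (k : Bool) : F k (1 : U K q) = 0 := by simp [F_apply]

theorem F_mul_gen (k j : Bool) (u : U K q) : F k (u * gen K q j) =
    F k u * gen K q j + (if k = j then tau (!k) u - tau k u else 0) := by
  rw [F_apply, F_apply, r_mul, l_mul, map_add, map_mul, map_mul, r_gen, l_gen, tau_gen, map_smul,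
    tau_gen, smul_smul]
  have h : pp q k j * pp q (!k) j = 1 := pp_mul k j
  rw [h, one_smul]
  by_cases h : k = j
  · simp [h, sub_mul]
    abel
  · simp [h, sub_mul]

theorem F_sc (k : Bool) (c : Bool → K) (u : U K q) : F k (sc c u) = c k • sc c (F k u) := by
  rw [F_apply, F_apply, r_sc, l_sc, map_sub, map_smul, smul_sub]
  congr 2
  exact sc_comm _ _ _

/-- iterated right skew derivations; `rw (k :: w)` first applies `r k`. -/
def rw' : List Bool → U K q →ₗ[K] U K q
  | [] => LinearMap.id
  | k :: w => rw' w ∘ₗ r k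

def Fw : List Bool → U K q →ₗ[K] U K q
  | [] => LinearMap.id
  | k :: w => Fw w ∘ₗ F k

@[simp] theorem rw'_nil (u : U K q) : rw' [] u = u := rfl
theorem rw'_cons (k : Bool) (w : List Bool) (u : U K q) : rw' (k :: w) u = rw' w (r k u) := rfl
@[simp] theorem Fw_nil (u : U K q) : Fw [] u = u := rfl
theorem Fw_cons (k : Bool) (w : List Bool) (u : U K q) : Fw (k :: w) u = Fw w (F k u) := rfl

theorem rw'_append (w : List Bool) (k : Bool) (u : U K q) : rw' (w ++ [k]) u = r k (rw' w u) := by
  induction w generalizing u with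
  | nil => rfl
  | cons j w ih => rw [List.cons_append, rw'_cons, ih, rw'_cons]

theorem rw'_l (w : List Bool) (k : Bool) (u : U K q) : rw' w (l k u) = l k (rw' w u) := by
  induction w generalizing u with
  | nil => rfl
  | cons j w ih => rw [rw'_cons, rw'_cons, ← l_r, ih]

theorem rw'_sc (w : List Bool) (c : Bool → K) (u : U K q) :
    rw' w (sc c u) = (w.map c).prod • sc c (rw' w u) := by
  induction w generalizing u with
  | nil => simp
  | cons j w ih => rw [rw'_cons, r_sc, map_smul, ih, rw'_cons, smul_smul, List.map_cons,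
      List.prod_cons]

theorem Fw_sc (w : List Bool) (c : Bool → K) (u : U K q) :
    Fw w (sc c u) = (w.map c).prod • sc c (Fw w u) := by
  induction w generalizing u with
  | nil => simp
  | cons j w ih => rw [Fw_cons, F_sc, map_smul, ih, Fw_cons, smul_smul, List.map_cons,
      List.prod_cons]

/-! ## Words, height filtration, bigrading -/

/-- the word `w` read from right to left -/
def pw (K : Type u) [Field K] (q : K) : List Bool → U K q
  | [] => 1
  | j :: w => pw K q w * gen K q j

/-- span of the words of length at most `s` -/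
def W (K : Type u) [Field K] (q : K) (s : ℕ) : Submodule K (U K q) :=
  Submodule.span K {u | ∃ w : List Bool, w.length ≤ s ∧ u = pw K q w}

/-- span of the words with `m` letters `true` and `n` letters `false` -/
def gr (K : Type u) [Field K] (q : K) (m n : ℕ) : Submodule K (U K q) :=
  Submodule.span K {u | ∃ w : List Bool, w.count true = m ∧ w.count false = n ∧ u = pw K q w}

theorem pw_mem_W {w : List Bool} {s : ℕ} (h : w.length ≤ s) : pw K q w ∈ W K q s :=
  Submodule.subset_span ⟨w, h, rfl⟩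

theorem one_mem_W (s : ℕ) : (1 : U K q) ∈ W K q s := pw_mem_W (w := []) (Nat.zero_le s)

theorem W_mono {s t : ℕ} (h : s ≤ t) : W K q s ≤ W K q t :=
  Submodule.span_mono (by rintro _ ⟨w, hw, rfl⟩; exact ⟨w, hw.trans h, rfl⟩)

theorem W_mul_gen {s : ℕ} {u : U K q} (hu : u ∈ W K q s) (j : Bool) :
    u * gen K q j ∈ W K q (s + 1) := by
  induction hu using Submodule.span_induction with
  | mem x hx =>
    obtain ⟨w, hw, rfl⟩ := hx
    exact pw_mem_W (w := j :: w) (by simp; omega)
  | zero => rw [zero_mul]; exact Submodule.zero_mem _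
  | add x y _ _ hx hy => rw [add_mul]; exact Submodule.add_mem _ hx hy
  | smul a x _ hx => rw [smul_mul_assoc]; exact Submodule.smul_mem _ _ hx

theorem gen_mul_pw (j : Bool) (w : List Bool) : gen K q j * pw K q w = pw K q (w ++ [j]) := by
  induction w with
  | nil => simp [pw]
  | cons i w ih => rw [pw, ← mul_assoc, ih, List.cons_append, pw]

theorem gen_mul_W {s : ℕ} {u : U K q} (hu : u ∈ W K q s) (j : Bool) :
    gen K q j * u ∈ W K q (s + 1) := by
  induction hu using Submodule.span_induction with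
  | mem x hx =>
    obtain ⟨w, hw, rfl⟩ := hx
    rw [gen_mul_pw]
    exact pw_mem_W (by simp; omega)
  | zero => rw [mul_zero]; exact Submodule.zero_mem _
  | add x y _ _ hx hy => rw [mul_add]; exact Submodule.add_mem _ hx hy
  | smul a x _ hx => rw [mul_smul_comm]; exact Submodule.smul_mem _ _ hx

theorem sc_pw (c : Bool → K) (w : List Bool) :
    sc c (pw K q w) = (c true ^ w.count true * c false ^ w.count false) • pw K q w := by
  induction w with
  | nil => simp [pw]
  | cons j w ih =>
    rw [pw, map_mul, ih, sc_gen, smul_mul_smul_comm]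
    cases j
    · simp [pow_succ, mul_assoc]
    · simp [pow_succ, mul_assoc, mul_comm (c true)]

theorem sc_W {s : ℕ} {u : U K q} (hu : u ∈ W K q s) (c : Bool → K) : sc c u ∈ W K q s := by
  induction hu using Submodule.span_induction with
  | mem x hx =>
    obtain ⟨w, hw, rfl⟩ := hx
    rw [sc_pw]
    exact Submodule.smul_mem _ _ (pw_mem_W hw)
  | zero => rw [map_zero]; exact Submodule.zero_mem _
  | add x y _ _ hx hy => rw [map_add]; exact Submodule.add_mem _ hx hy
  | smul a x _ hx => rw [map_smul]; exact Submodule.smul_mem _ _ hx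

theorem sc_gr {m n : ℕ} {u : U K q} (hu : u ∈ gr K q m n) (c : Bool → K) :
    sc c u = (c true ^ m * c false ^ n) • u := by
  induction hu using Submodule.span_induction with
  | mem x hx =>
    obtain ⟨w, rfl, rfl, rfl⟩ := hx
    exact sc_pw c w
  | zero => rw [map_zero, smul_zero]
  | add x y _ _ hx hy => rw [map_add, hx, hy, smul_add]
  | smul a x _ hx => rw [map_smul, hx, smul_comm]

theorem count_add (w : List Bool) : w.count true + w.count false = w.length := by
  induction w with
  | nil => rfl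
  | cons j w ih => cases j <;> simp <;> omega

theorem gr_le_W (m n : ℕ) : gr K q m n ≤ W K q (m + n) :=
  Submodule.span_mono (by
    rintro _ ⟨w, rfl, rfl, rfl⟩
    exact ⟨w, (count_add w).ge, rfl⟩)

theorem l_pw (i : Bool) (w : List Bool) : l i (pw K q w) ∈ W K q (w.length - 1) := by
  induction w with
  | nil => simp [pw]
  | cons j w ih =>
    rw [pw, l_mul, l_gen]
    refine Submodule.add_mem _ ?_ ?_
    · rcases w with _ | ⟨k, w⟩
      · simp [pw]
      · have := W_mul_gen ih j
        simpa using this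
    · by_cases h : i = j
      · rw [if_pos h, mul_one]
        exact sc_W (pw_mem_W (by simp)) _
      · rw [if_neg h, mul_zero]
        exact Submodule.zero_mem _

theorem r_pw (i : Bool) (w : List Bool) : r i (pw K q w) ∈ W K q (w.length - 1) := by
  induction w with
  | nil => simp [pw]
  | cons j w ih =>
    rw [pw, r_mul, r_gen, tau_gen, mul_smul_comm]
    refine Submodule.add_mem _ ?_ ?_
    · by_cases h : i = j
      · rw [if_pos h, mul_one]
        exact pw_mem_W (by simp)
      · rw [if_neg h, mul_zero]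
        exact Submodule.zero_mem _
    · refine Submodule.smul_mem _ _ ?_
      rcases w with _ | ⟨k, w⟩
      · simp [pw]
      · have := W_mul_gen ih j
        simpa using this

theorem l_W {s : ℕ} {u : U K q} (hu : u ∈ W K q (s + 1)) (i : Bool) : l i u ∈ W K q s := by
  induction hu using Submodule.span_induction with
  | mem x hx =>
    obtain ⟨w, hw, rfl⟩ := hx
    exact W_mono (by omega) (l_pw i w)
  | zero => rw [map_zero]; exact Submodule.zero_mem _
  | add x y _ _ hx hy => rw [map_add]; exact Submodule.add_mem _ hx hy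
  | smul a x _ hx => rw [map_smul]; exact Submodule.smul_mem _ _ hx

theorem r_W {s : ℕ} {u : U K q} (hu : u ∈ W K q (s + 1)) (i : Bool) : r i u ∈ W K q s := by
  induction hu using Submodule.span_induction with
  | mem x hx =>
    obtain ⟨w, hw, rfl⟩ := hx
    exact W_mono (by omega) (r_pw i w)
  | zero => rw [map_zero]; exact Submodule.zero_mem _
  | add x y _ _ hx hy => rw [map_add]; exact Submodule.add_mem _ hx hy
  | smul a x _ hx => rw [map_smul]; exact Submodule.smul_mem _ _ hx

theorem W_zero {u : U K q} (hu : u ∈ W K q 0) : ∃ c : K, u = c • 1 := by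
  induction hu using Submodule.span_induction with
  | mem x hx =>
    obtain ⟨w, hw, rfl⟩ := hx
    obtain rfl : w = [] := List.eq_nil_of_length_eq_zero (by omega)
    exact ⟨1, by simp [pw]⟩
  | zero => exact ⟨0, by simp⟩
  | add x y _ _ hx hy =>
    obtain ⟨a, rfl⟩ := hx
    obtain ⟨b, rfl⟩ := hy
    exact ⟨a + b, by rw [add_smul]⟩
  | smul a x _ hx =>
    obtain ⟨b, rfl⟩ := hx
    exact ⟨a * b, by rw [smul_smul]⟩

theorem gr_zero {u : U K q} (hu : u ∈ gr K q 0 0) : ∃ c : K, u = c • 1 := W_zero (gr_le_W 0 0 hu)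

theorem exhaust (u : U K q) : ∃ s, u ∈ W K q s := by
  let S : Submodule K (U K q) :=
    { carrier := {u | ∃ s, u ∈ W K q s}
      zero_mem' := ⟨0, Submodule.zero_mem _⟩
      add_mem' := by
        rintro a b ⟨s, hs⟩ ⟨t, ht⟩
        exact ⟨max s t, Submodule.add_mem _ (W_mono (le_max_left _ _) hs)
          (W_mono (le_max_right _ _) ht)⟩
      smul_mem' := by
        rintro c a ⟨s, hs⟩
        exact ⟨s, Submodule.smul_mem _ _ hs⟩ }
  have h := ind_right S ⟨0, one_mem_W 0⟩ (by
    rintro u ⟨s, hs⟩ i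
    exact ⟨s + 1, W_mul_gen hs i⟩)
  have : u ∈ S := h ▸ Submodule.mem_top
  exact this

theorem eps_gr {m n : ℕ} (h : 0 < m + n) {u : U K q} (hu : u ∈ gr K q m n) : eps u = 0 := by
  induction hu using Submodule.span_induction with
  | mem x hx =>
    obtain ⟨w, rfl, rfl, rfl⟩ := hx
    rw [count_add] at h
    rcases w with _ | ⟨j, w⟩
    · simp at h
    · simp [pw]
  | zero => rw [map_zero]
  | add x y _ _ hx hy => rw [map_add, hx, hy, add_zero]
  | smul a x _ hx => rw [map_smul, hx, smul_zero]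

/-- index set of bidegrees of total degree at most `s` -/
def idx (s : ℕ) : Finset (ℕ × ℕ) :=
  ((Finset.range (s + 1)) ×ˢ (Finset.range (s + 1))).filter (fun p => p.1 + p.2 ≤ s)

theorem mem_idx {s : ℕ} {p : ℕ × ℕ} : p ∈ idx s ↔ p.1 + p.2 ≤ s := by
  simp [idx]
  omega

theorem decomp {s : ℕ} {u : U K q} (hu : u ∈ W K q s) :
    ∃ f : ℕ × ℕ → U K q, (∀ p, f p ∈ gr K q p.1 p.2) ∧ u = ∑ p ∈ idx s, f p := by
  classical
  induction hu using Submodule.span_induction with
  | mem x hx =>
    obtain ⟨w, hw, rfl⟩ := hx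
    refine ⟨fun p => if p = (w.count true, w.count false) then pw K q w else 0, ?_, ?_⟩
    · intro p
      dsimp only
      by_cases h : p = (w.count true, w.count false)
      · rw [if_pos h, h]
        exact Submodule.subset_span ⟨w, rfl, rfl, rfl⟩
      · rw [if_neg h]; exact Submodule.zero_mem _
    · rw [Finset.sum_ite_eq' (idx s), if_pos]
      rw [mem_idx]
      have := count_add w
      simp only
      omega
  | zero => exact ⟨fun _ => 0, fun p => Submodule.zero_mem _, by simp⟩
  | add x y _ _ hx hy =>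
    obtain ⟨f, hf, rfl⟩ := hx
    obtain ⟨g, hg, rfl⟩ := hy
    exact ⟨fun p => f p + g p, fun p => Submodule.add_mem _ (hf p) (hg p),
      by rw [Finset.sum_add_distrib]⟩
  | smul a x _ hx =>
    obtain ⟨f, hf, rfl⟩ := hx
    exact ⟨fun p => a • f p, fun p => Submodule.smul_mem _ _ (hf p), by rw [Finset.smul_sum]⟩

/-- eigenvector lemma -/
theorem eigen {V : Type*} [AddCommGroup V] [Module K V] (f : V →ₗ[K] V) (S : Submodule K V)
    (hS : ∀ v ∈ S, f v ∈ S) {ι : Type*} (lam : ι → K) (T : Finset ι)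
    (hinj : Set.InjOn lam T) (v : ι → V) (hv : ∀ i ∈ T, f (v i) = lam i • v i)
    (hsum : ∑ i ∈ T, v i ∈ S) : ∀ i ∈ T, v i ∈ S := by
  classical
  induction T using Finset.induction_on generalizing v with
  | empty => simp
  | @insert a T ha ih =>
    have h1 : ∑ i ∈ T, (lam i - lam a) • v i ∈ S := by
      have h2 : f (∑ i ∈ insert a T, v i) - lam a • ∑ i ∈ insert a T, v i ∈ S :=
        S.sub_mem (hS _ hsum) (S.smul_mem _ hsum)
      have h3 : f (∑ i ∈ insert a T, v i) - lam a • ∑ i ∈ insert a T, v i =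
          ∑ i ∈ T, (lam i - lam a) • v i := by
        rw [map_sum, Finset.smul_sum, ← Finset.sum_sub_distrib, Finset.sum_insert ha,
          hv a (Finset.mem_insert_self a T), sub_self, zero_add]
        apply Finset.sum_congr rfl
        intro i hi
        rw [hv i (Finset.mem_insert_of_mem hi), sub_smul]
      rwa [h3] at h2
    have h4 := ih (hinj.mono (by simp)) (fun i => (lam i - lam a) • v i) (by
      intro i hi
      rw [map_smul, hv i (Finset.mem_insert_of_mem hi), smul_comm]) h1
    have h5 : ∀ i ∈ T, v i ∈ S := by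
      intro i hi
      have hne : lam i - lam a ≠ 0 := by
        intro h0
        have := hinj (Finset.mem_coe.2 (Finset.mem_insert_of_mem hi))
          (Finset.mem_coe.2 (Finset.mem_insert_self a T)) (sub_eq_zero.1 h0)
        exact ha (this ▸ hi)
      have := S.smul_mem (lam i - lam a)⁻¹ (h4 i hi)
      rwa [smul_smul, inv_mul_cancel₀ hne, one_smul] at this
    intro i hi
    rcases Finset.mem_insert.1 hi with rfl | hi
    · have h6 : v i = ∑ j ∈ insert i T, v j - ∑ j ∈ T, v j := by
        rw [Finset.sum_insert ha]; abel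
      rw [h6]
      exact S.sub_mem hsum (S.sum_mem h5)
    · exact h5 i hi

/-- powers of `q` are distinct -/
theorem pow_inj (hroot : ∀ n : ℕ, 0 < n → q ^ n ≠ 1) {a b : ℕ} (h : q ^ a = q ^ b) : a = b := by
  have hq : q ≠ 0 := NeZero.ne q
  by_contra hne
  wlog hlt : a < b generalizing a b
  · exact this h.symm (Ne.symm hne) (by omega)
  have h2 : q ^ b = q ^ a * q ^ (b - a) := by rw [← pow_add]; congr 1; omega
  rw [h2] at h
  have h3 : q ^ (b - a) = 1 := by
    have : q ^ a * 1 = q ^ a * q ^ (b - a) := by rw [mul_one]; exact h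
    exact (mul_left_cancel₀ (pow_ne_zero _ hq) this).symm
  exact hroot (b - a) (by omega) h3

/-- components of an element of a subspace stable under all scalings -/
theorem comp_mem (hroot : ∀ n : ℕ, 0 < n → q ^ n ≠ 1) (S : Submodule K (U K q))
    (hS : ∀ c : Bool → K, (∀ i, c i ≠ 0) → ∀ v ∈ S, sc c v ∈ S) {s : ℕ} (f : ℕ × ℕ → U K q)
    (hf : ∀ p, f p ∈ gr K q p.1 p.2) (hsum : ∑ p ∈ idx s, f p ∈ S) : ∀ p ∈ idx s, f p ∈ S := by
  have hq : q ≠ 0 := NeZero.ne q
  let c : Bool → K := fun i => if i then q else q ^ (s + 1)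
  refine eigen (sc c).toLinearMap S ?_ (fun p : ℕ × ℕ => q ^ (p.1 + (s + 1) * p.2)) (idx s) ?_ f ?_ hsum
  · intro v hv
    exact hS c (by intro i; cases i <;> simp [c, hq]) v hv
  · intro p hp p' hp' h
    have h1 := pow_inj hroot h
    have h2 := mem_idx.1 (Finset.mem_coe.1 hp)
    have h3 := mem_idx.1 (Finset.mem_coe.1 hp')
    have h4 : p.1 < s + 1 := by omega
    have h5 : p'.1 < s + 1 := by omega
    have h6 : p.1 = p'.1 := by
      have := congrArg (· % (s + 1)) h1
      simp only [Nat.add_mul_mod_self_left] at this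
      rwa [Nat.mod_eq_of_lt h4, Nat.mod_eq_of_lt h5] at this
    have h7 : p.2 = p'.2 := by
      rw [h6] at h1
      exact Nat.eq_of_mul_eq_mul_left (Nat.succ_pos s) (Nat.add_left_cancel h1)
    exact Prod.ext h6 h7
  · intro p hp
    show sc c (f p) = _
    rw [sc_gr (hf p)]
    congr 1
    simp only [c, if_true, Bool.false_eq_true, if_false]
    rw [← pow_mul, ← pow_add]

/-! ## The `sl_2` bound -/

/-- `D i u = g_i u - tau_i(u) g_i` -/
def D (i : Bool) : U K q →ₗ[K] U K q :=
  LinearMap.mulLeft K (gen K q i) - (LinearMap.mulRight K (gen K q i)) ∘ₗ (tau i).toLinearMap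

theorem D_apply (i : Bool) (u : U K q) : D i u = gen K q i * u - tau i u * gen K q i := rfl

theorem D_mul (i : Bool) (u v : U K q) : D i (u * v) = D i u * v + tau i u * D i v := by
  simp only [D_apply, map_mul, sub_mul, mul_sub, mul_assoc]
  abel

theorem D_sc (i : Bool) (c : Bool → K) (u : U K q) : sc c (D i u) = c i • D i (sc c u) := by
  rw [D_apply, D_apply, map_sub, map_mul, map_mul, sc_gen, smul_mul_assoc, mul_smul_comm,
    smul_sub]
  have : sc c (tau i u) = tau i (sc c u) := sc_comm _ _ _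
  rw [this]

theorem r_D (i : Bool) (u : U K q) (h : r i u = 0) : r i (D i u) = 0 := by
  have h1 : r i (tau i u) = pp q i i • tau i (r i u) := r_sc _ _ _
  rw [D_apply, map_sub, r_mul, r_mul, h1, h, r_gen]
  simp

theorem l_D (i : Bool) (u : U K q) :
    l i (D i u) = u - tau i (tau i u) + q ^ 2 • D i (l i u) := by
  have h1 : l i (tau i u) = pp q i i • tau i (l i u) := l_sc _ _ _
  rw [D_apply, map_sub, l_mul, l_mul, h1, l_gen, D_apply, tau_gen]
  simp only [if_true, pp_self, one_mul, mul_one, smul_mul_assoc, smul_sub]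
  abel

/-- iterates of `D i` -/
def Dn (i : Bool) : ℕ → U K q →ₗ[K] U K q
  | 0 => LinearMap.id
  | n + 1 => Dn i n ∘ₗ D i

@[simp] theorem Dn_zero (i : Bool) (u : U K q) : Dn i 0 u = u := rfl
theorem Dn_succ (i : Bool) (n : ℕ) (u : U K q) : Dn i (n + 1) u = Dn i n (D i u) := rfl
theorem Dn_succ' (i : Bool) (n : ℕ) (u : U K q) : Dn i (n + 1) u = D i (Dn i n u) := by
  induction n generalizing u with
  | zero => rfl
  | succ n ih => rw [Dn_succ, ih, Dn_succ]

theorem Dn_sc (i : Bool) (c : Bool → K) (n : ℕ) (u : U K q) :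
    sc c (Dn i n u) = c i ^ n • Dn i n (sc c u) := by
  induction n generalizing u with
  | zero => simp
  | succ n ih => rw [Dn_succ, ih, D_sc, map_smul, smul_smul, Dn_succ, pow_succ]

theorem Dn_sc_zero (i : Bool) (c : Bool → K) (hc : c i ≠ 0) (n : ℕ) (u : U K q)
    (h : Dn i n u = 0) : Dn i n (sc c u) = 0 := by
  have h1 := Dn_sc i c n u
  rw [h, map_zero] at h1
  exact (smul_eq_zero.1 h1.symm).resolve_left (pow_ne_zero _ hc)

theorem pp_ne (i j : Bool) : pp q i j ≠ 0 := by
  have hq : q ≠ 0 := NeZero.ne q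
  unfold pp
  split <;> simp [hq]

theorem Dn_mul (i : Bool) (n : ℕ) : ∀ (a b : ℕ) (u v : U K q), a + b = n → Dn i a u = 0 →
    Dn i b v = 0 → Dn i n (u * v) = 0 := by
  induction n with
  | zero =>
    intro a b u v hab ha hb
    obtain rfl : a = 0 := by omega
    rw [Dn_zero] at ha
    rw [ha, zero_mul, map_zero]
  | succ n ih =>
    intro a b u v hab ha hb
    rcases a with _ | a
    · rw [Dn_zero] at ha
      rw [ha, zero_mul, map_zero]
    · rcases b with _ | b
      · rw [Dn_zero] at hb
        rw [hb, mul_zero, map_zero]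
      · have h2 : Dn i (a + 1) (tau i u) = 0 := Dn_sc_zero i _ (pp_ne i i) _ _ ha
        rw [Dn_succ, D_mul, map_add, ih a (b + 1) _ _ (by omega) ha hb,
          ih (a + 1) b _ _ (by omega) h2 hb, add_zero]

theorem Dn_mono (i : Bool) {a b : ℕ} (hab : a ≤ b) {u : U K q} (h : Dn i a u = 0) :
    Dn i b u = 0 := by
  obtain ⟨c, rfl⟩ := Nat.exists_eq_add_of_le hab
  induction c with
  | zero => exact h
  | succ c ih => rw [← add_assoc, Dn_succ', ih (by omega), map_zero]

/-- elements killed by `r i` on which `D i` is nilpotent -/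
def NN (K : Type u) [Field K] (q : K) [NeZero q] (i : Bool) : Submodule K (U K q) where
  carrier := {u | r i u = 0 ∧ ∃ N, Dn i N u = 0}
  zero_mem' := ⟨map_zero _, 0, rfl⟩
  add_mem' := by
    rintro a b ⟨ha, N, hN⟩ ⟨hb, M, hM⟩
    refine ⟨by rw [map_add, ha, hb, add_zero], max N M, ?_⟩
    rw [map_add, Dn_mono i (le_max_left N M) hN, Dn_mono i (le_max_right N M) hM, add_zero]
  smul_mem' := by
    rintro c a ⟨ha, N, hN⟩
    exact ⟨by rw [map_smul, ha, smul_zero], N, by rw [map_smul, hN, smul_zero]⟩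

theorem NN_mul {i : Bool} {u v : U K q} (hu : u ∈ NN K q i) (hv : v ∈ NN K q i) :
    u * v ∈ NN K q i := by
  obtain ⟨ha, N, hN⟩ := hu
  obtain ⟨hb, M, hM⟩ := hv
  exact ⟨by rw [r_mul, ha, hb, mul_zero, zero_mul, add_zero], N + M, Dn_mul i _ N M _ _ rfl hN hM⟩

theorem NN_one {i : Bool} : (1 : U K q) ∈ NN K q i :=
  ⟨r_one i, 1, by rw [Dn_succ, D_apply]; simp⟩

theorem NN_D {i : Bool} {u : U K q} (hu : u ∈ NN K q i) : D i u ∈ NN K q i := by
  obtain ⟨ha, N, hN⟩ := hu
  refine ⟨r_D i u ha, N, ?_⟩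
  rw [← Dn_succ, Dn_succ', hN, map_zero]

theorem NN_tau {i : Bool} {u : U K q} (hu : u ∈ NN K q i) : tau i u ∈ NN K q i := by
  obtain ⟨ha, N, hN⟩ := hu
  refine ⟨?_, N, Dn_sc_zero i _ (pp_ne i i) _ _ hN⟩
  have h1 : r i (tau i u) = pp q i i • tau i (r i u) := r_sc _ _ _
  rw [h1, ha, map_zero, smul_zero]

theorem NN_gen {i : Bool} : gen K q (!i) ∈ NN K q i := by
  have hq : q ≠ 0 := NeZero.ne q
  refine ⟨?_, 3, ?_⟩
  · rw [r_gen]; simp
  · have h : Dn i 3 (gen K q (!i)) = serre q (gen K q i) (gen K q (!i)) := by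
      simp only [Dn_succ, Dn_zero, D_apply, map_sub, map_mul, map_smul, tau_gen, pp_self, pp_not,
        serre, mul_sub, sub_mul, smul_mul_assoc, mul_smul_comm, mul_assoc, pow_succ, pow_zero,
        one_mul, smul_smul, smul_sub]
      match_scalars <;> field_simp <;> ring
    rw [h, gen_serre]

/-- elements of the form `sum b_k g_i^k` -/
def Csub (K : Type u) [Field K] (q : K) [NeZero q] (i : Bool) : Submodule K (U K q) where
  carrier := {u | ∃ (n : ℕ) (b : ℕ → U K q), (∀ k, b k ∈ NN K q i) ∧ (∀ k, n ≤ k → b k = 0) ∧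
    u = ∑ k ∈ Finset.range n, b k * gen K q i ^ k}
  zero_mem' := ⟨0, fun _ => 0, fun _ => Submodule.zero_mem _, fun _ _ => rfl, by simp⟩
  add_mem' := by
    rintro x y ⟨n, b, hb, hb0, rfl⟩ ⟨m, c, hc, hc0, rfl⟩
    refine ⟨max n m, fun k => b k + c k, fun k => Submodule.add_mem _ (hb k) (hc k), ?_, ?_⟩
    · intro k hk
      show b k + c k = 0
      rw [hb0 k (by omega), hc0 k (by omega), add_zero]
    · have h1 : ∑ k ∈ Finset.range n, b k * gen K q i ^ k =
          ∑ k ∈ Finset.range (max n m), b k * gen K q i ^ k := by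
        apply Finset.sum_subset
        · intro k hk; simp at hk ⊢; omega
        · intro k _ hk
          rw [hb0 k (by simpa using hk), zero_mul]
      have h2 : ∑ k ∈ Finset.range m, c k * gen K q i ^ k =
          ∑ k ∈ Finset.range (max n m), c k * gen K q i ^ k := by
        apply Finset.sum_subset
        · intro k hk; simp at hk ⊢; omega
        · intro k _ hk
          rw [hc0 k (by simpa using hk), zero_mul]
      rw [h1, h2, ← Finset.sum_add_distrib]
      apply Finset.sum_congr rfl
      intro k _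
      rw [add_mul]
  smul_mem' := by
    rintro a x ⟨n, b, hb, hb0, rfl⟩
    refine ⟨n, fun k => a • b k, fun k => Submodule.smul_mem _ _ (hb k), ?_, ?_⟩
    · intro k hk
      show a • b k = 0
      rw [hb0 k hk, smul_zero]
    · rw [Finset.smul_sum]
      apply Finset.sum_congr rfl
      intro k _
      rw [smul_mul_assoc]

theorem Csub_top (i : Bool) : Csub K q i = ⊤ := by
  apply ind_left
  · exact ⟨1, fun k => if k = 0 then 1 else 0, fun k => by
      dsimp only; split
      · exact NN_one
      · exact Submodule.zero_mem _, fun k hk => by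
      dsimp only; rw [if_neg (by omega)], by simp⟩
  · rintro _ ⟨n, b, hb, hb0, rfl⟩ j
    by_cases h : j = i
    · subst h
      have h1 : gen K q j * ∑ k ∈ Finset.range n, b k * gen K q j ^ k =
        ∑ k ∈ Finset.range n, D j (b k) * gen K q j ^ k +
          ∑ k ∈ Finset.range n, tau j (b k) * gen K q j ^ (k + 1) := by
        rw [Finset.mul_sum, ← Finset.sum_add_distrib]
        apply Finset.sum_congr rfl
        intro k _
        rw [D_apply, sub_mul, pow_succ', mul_assoc, mul_assoc]
        abel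
      rw [h1]
      refine Submodule.add_mem _ ?_ ?_
      · exact ⟨n, fun k => D j (b k), fun k => NN_D (hb k), fun k hk => by
          dsimp only; rw [hb0 k hk, map_zero], rfl⟩
      · refine ⟨n + 1, fun k => if k = 0 then 0 else tau j (b (k - 1)), ?_, ?_, ?_⟩
        · intro k
          dsimp only; split
          · exact Submodule.zero_mem _
          · exact NN_tau (hb _)
        · intro k hk
          dsimp only
          rw [if_neg (by omega), hb0 (k - 1) (by omega), map_zero]
        · rw [Finset.sum_range_succ']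
          simp
    · obtain rfl : j = !i := by cases i <;> cases j <;> simp_all
      refine ⟨n, fun k => gen K q (!i) * b k, fun k => NN_mul NN_gen (hb k), fun k hk => by
          dsimp only; rw [hb0 k hk, mul_zero], ?_⟩
      rw [Finset.mul_sum]
      apply Finset.sum_congr rfl
      intro k _
      rw [mul_assoc]

/-- `q`-integers -/
def br (q : K) : ℕ → K
  | 0 => 0
  | k + 1 => 1 + q ^ 2 * br q k

theorem br_eq (k : ℕ) : (q ^ 2 - 1) * br q k = (q ^ 2) ^ k - 1 := by
  induction k with
  | zero => simp [br]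
  | succ k ih =>
    rw [br, mul_add, mul_one, mul_left_comm, ih]
    ring

theorem br_ne (hroot : ∀ n : ℕ, 0 < n → q ^ n ≠ 1) (k : ℕ) : br q (k + 1) ≠ 0 := by
  intro h
  have := br_eq (q := q) (k + 1)
  rw [h, mul_zero, ← pow_mul] at this
  exact hroot (2 * (k + 1)) (by omega) (sub_eq_zero.1 this.symm)

theorem r_pow (i : Bool) (k : ℕ) :
    r i (gen K q i ^ (k + 1)) = br q (k + 1) • gen K q i ^ k := by
  induction k with
  | zero => simp [r_gen, br]
  | succ k ih =>
    have h : br q (k + 1 + 1) = 1 + q ^ 2 * br q (k + 1) := rfl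
    rw [pow_succ, r_mul, ih, r_gen, tau_gen, if_pos rfl, mul_one, pp_self,
      smul_mul_assoc, mul_smul_comm, smul_smul, ← pow_succ, h, add_smul, one_smul, mul_comm]

/-- iterates of `r i` -/
def rn (i : Bool) : ℕ → U K q →ₗ[K] U K q
  | 0 => LinearMap.id
  | n + 1 => rn i n ∘ₗ r i

theorem rn_succ (i : Bool) (n : ℕ) (u : U K q) : rn i (n + 1) u = rn i n (r i u) := rfl

theorem rn_mul (i : Bool) (n : ℕ) (b u : U K q) (hb : r i b = 0) :
    rn i n (b * u) = b * rn i n u := by
  induction n generalizing u with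
  | zero => rfl
  | succ n ih => rw [rn_succ, r_mul, hb, zero_mul, add_zero, ih, rn_succ]

theorem rn_pow_lt (i : Bool) (n k : ℕ) (h : k < n) : rn i n (gen K q i ^ k) = 0 := by
  induction n generalizing k with
  | zero => omega
  | succ n ih =>
    rw [rn_succ]
    rcases k with _ | k
    · rw [pow_zero, r_one, map_zero]
    · rw [r_pow, map_smul, ih k (by omega), smul_zero]

theorem rn_pow_self (hroot : ∀ n : ℕ, 0 < n → q ^ n ≠ 1) (i : Bool) (n : ℕ) :
    ∃ c : K, c ≠ 0 ∧ rn i n (gen K q i ^ n) = c • 1 := by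
  induction n with
  | zero => exact ⟨1, one_ne_zero, by simp [rn]⟩
  | succ n ih =>
    obtain ⟨c, hc, h⟩ := ih
    refine ⟨br q (n + 1) * c, mul_ne_zero (br_ne hroot n) hc, ?_⟩
    rw [rn_succ, r_pow, map_smul, h, smul_smul]

theorem mem_NN_of_sum (hroot : ∀ n : ℕ, 0 < n → q ^ n ≠ 1) (i : Bool) (n : ℕ) (b : ℕ → U K q)
    (hb : ∀ k, b k ∈ NN K q i)
    (h0 : r i (∑ k ∈ Finset.range n, b k * gen K q i ^ k) = 0) :
    ∑ k ∈ Finset.range n, b k * gen K q i ^ k ∈ NN K q i := by
  induction n with
  | zero => simp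
  | succ n ih =>
    rcases n with _ | n
    · simpa using hb 0
    · have h1 : rn i (n + 1) (∑ k ∈ Finset.range (n + 1 + 1), b k * gen K q i ^ k) = 0 := by
        rw [rn_succ, h0, map_zero]
      rw [Finset.sum_range_succ, map_add, map_sum] at h1
      have h2 : ∑ k ∈ Finset.range (n + 1), rn i (n + 1) (b k * gen K q i ^ k) = 0 := by
        apply Finset.sum_eq_zero
        intro k hk
        rw [rn_mul i _ _ _ (hb k).1, rn_pow_lt i _ _ (by simpa using hk), mul_zero]
      obtain ⟨c, hc, h3⟩ := rn_pow_self (K := K) hroot i (n + 1)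
      rw [h2, zero_add, rn_mul i _ _ _ (hb _).1, h3, mul_smul_comm, mul_one] at h1
      have h4 : b (n + 1) = 0 := (smul_eq_zero.1 h1).resolve_left hc
      rw [Finset.sum_range_succ, h4, zero_mul, add_zero] at h0 ⊢
      exact ih h0

theorem mem_NN (hroot : ∀ n : ℕ, 0 < n → q ^ n ≠ 1) (i : Bool) (u : U K q) (h : r i u = 0) :
    u ∈ NN K q i := by
  have h1 : u ∈ Csub K q i := (Csub_top (K := K) (q := q) i) ▸ Submodule.mem_top
  obtain ⟨n, b, hb, hb0, rfl⟩ := h1
  exact mem_NN_of_sum hroot i n b hb h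

/-- structure constants -/
def cc (q : K) (e : ℕ) : ℕ → K
  | 0 => 1 - (q ^ 2) ^ (2 * e)
  | k + 1 => (1 - (q ^ 2) ^ (2 * (e + k + 1))) + q ^ 2 * cc q e k

theorem cc_eq (e k : ℕ) :
    (q ^ 2 - 1) * cc q e k = ((q ^ 2) ^ (k + 1) - 1) * (1 - (q ^ 2) ^ (2 * e + k)) := by
  induction k with
  | zero => simp [cc]
  | succ k ih =>
    rw [cc, mul_add, mul_left_comm, ih]
    ring

theorem cc_ne (hroot : ∀ n : ℕ, 0 < n → q ^ n ≠ 1) (e k : ℕ) (he : 0 < e) : cc q e k ≠ 0 := by
  intro h
  have h1 := cc_eq (q := q) e k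
  rw [h, mul_zero, ← pow_mul, ← pow_mul] at h1
  rcases mul_eq_zero.1 h1.symm with h2 | h2
  · exact hroot _ (by omega) (sub_eq_zero.1 h2)
  · exact hroot (2 * (2 * e + k)) (by omega) (sub_eq_zero.1 h2).symm

theorem tau_Dn (i : Bool) (v : U K q) (e : ℕ) (hv : tau i v = (q ^ 2) ^ e • v) (k : ℕ) :
    tau i (Dn i k v) = (q ^ 2) ^ (e + k) • Dn i k v := by
  have h : tau i (Dn i k v) = pp q i i ^ k • Dn i k (tau i v) := Dn_sc _ _ _ _
  rw [h, hv, map_smul, smul_smul, pp_self, ← pow_add, add_comm]

theorem l_Dn (i : Bool) (v : U K q) (e : ℕ) (hv : tau i v = (q ^ 2) ^ e • v) (hl : l i v = 0)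
    (k : ℕ) : l i (Dn i (k + 1) v) = cc q e k • Dn i k v := by
  induction k with
  | zero =>
    rw [Dn_succ', l_D, Dn_zero, hl, map_zero, smul_zero, add_zero, hv, map_smul, hv, smul_smul,
      ← pow_add, cc, sub_smul, one_smul, two_mul]
  | succ k ih =>
    rw [Dn_succ', l_D, ih, tau_Dn i v e hv, map_smul, map_smul, tau_Dn i v e hv, smul_smul,
      smul_smul, ← Dn_succ', cc, add_smul, sub_smul, one_smul, ← pow_add]
    congr 3
    congr 1
    ring

theorem sl2_bound (hroot : ∀ n : ℕ, 0 < n → q ^ n ≠ 1) (i : Bool) (v : U K q) (e : ℕ) (he : 0 < e)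
    (hv : tau i v = (q ^ 2) ^ e • v) (hl : l i v = 0) (hr : r i v = 0) : v = 0 := by
  obtain ⟨-, N, hN⟩ := mem_NN hroot i v hr
  induction N with
  | zero => exact hN
  | succ N ih =>
    apply ih
    have h := l_Dn i v e hv hl N
    rw [hN, map_zero] at h
    exact (smul_eq_zero.1 h.symm).resolve_left (cc_ne hroot e N he)

/-! ## The twisted right action of `U` on itself -/

/-- twisted right multiplication -/
def Nop (j : Bool) : U K q →ₗ[K] U K q :=
  (LinearMap.mulRight K (gen K q j)) ∘ₗ (tau (!j)).toLinearMap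

theorem Nop_apply (j : Bool) (a : U K q) : Nop j a = tau (!j) a * gen K q j := rfl

theorem Nop_serre (i : Bool) : serre q (MulOpposite.op (Nop (K := K) (q := q) i))
    (MulOpposite.op (Nop (K := K) (q := q) (!i))) = 0 := by
  have hq : q ≠ 0 := NeZero.ne q
  apply MulOpposite.unop_injective
  apply LinearMap.ext
  intro a
  have h : (MulOpposite.unop (serre q (MulOpposite.op (Nop (K := K) (q := q) i))
    (MulOpposite.op (Nop (K := K) (q := q) (!i))))) a =
    tau (!i) (tau (!i) a) * serre q (gen K q i) (gen K q (!i)) := by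
    simp only [serre, pow_succ, pow_zero, one_mul, MulOpposite.unop_add, MulOpposite.unop_sub,
      MulOpposite.unop_mul, MulOpposite.unop_smul, MulOpposite.unop_op, LinearMap.add_apply,
      LinearMap.sub_apply, LinearMap.smul_apply, Module.End.mul_apply, Nop_apply, map_mul,
      map_smul, tau_gen, Bool.not_not, pp_self, pp_not, pp_not', tau_not_tau, tau_tau_not,
      mul_add, mul_sub, mul_smul_comm, smul_mul_assoc, smul_smul, mul_assoc]
    match_scalars <;> field_simp <;> ring
  rw [h, gen_serre, mul_zero]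
  rfl

/-- the right action as an algebra homomorphism -/
def act (K : Type u) [Field K] (q : K) [NeZero q] : U K q →ₐ[K] (Module.End K (U K q))ᵐᵒᵖ :=
  lift (fun j => MulOpposite.op (Nop j)) Nop_serre

/-- `ract b a = a ◁ b` -/
def ract (b a : U K q) : U K q := (act K q b).unop a

theorem ract_one (a : U K q) : ract 1 a = a := by
  unfold ract; rw [map_one]; rfl

theorem ract_mul (b b' a : U K q) : ract (b * b') a = ract b' (ract b a) := by
  unfold ract; rw [map_mul]; rfl

theorem ract_gen (j : Bool) (a : U K q) : ract (gen K q j) a = tau (!j) a * gen K q j := by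
  unfold ract act; rw [lift_gen]; rfl

theorem ract_add_left (b b' a : U K q) : ract (b + b') a = ract b a + ract b' a := by
  unfold ract; rw [map_add]; rfl

theorem ract_smul_left (c : K) (b a : U K q) : ract (c • b) a = c • ract b a := by
  unfold ract; rw [map_smul]; rfl

theorem ract_add_right (b a a' : U K q) : ract b (a + a') = ract b a + ract b a' := by
  unfold ract; rw [map_add]

theorem ract_smul_right (c : K) (b a : U K q) : ract b (c • a) = c • ract b a := by
  unfold ract; rw [map_smul]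

/-- `a ◁ b` as a bilinear map -/
def racl : U K q →ₗ[K] U K q →ₗ[K] U K q :=
  LinearMap.mk₂ K (fun a b => ract b a) (fun a a' b => ract_add_right b a a')
    (fun c a b => ract_smul_right c b a) (fun a b b' => ract_add_left b b' a)
    (fun c a b => ract_smul_left c b a)

theorem racl_apply (a b : U K q) : racl a b = ract b a := rfl

theorem sc_ract (c : Bool → K) (a b : U K q) : sc c (ract b a) = ract (sc c b) (sc c a) := by
  refine lin_ext ((sc c).toLinearMap ∘ₗ racl a) (racl (sc c a) ∘ₗ (sc c).toLinearMap) ?_ ?_ b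
  · simp [racl_apply, ract_one]
  · intro b hb j
    simp only [LinearMap.comp_apply, AlgHom.toLinearMap_apply, racl_apply] at hb ⊢
    rw [ract_mul, ract_gen, map_mul, map_mul, ract_mul, sc_gen, ract_smul_left, ract_gen, ← hb,
      mul_smul_comm]
    have : tau (!j) (sc c (ract b a)) = sc c (tau (!j) (ract b a)) := sc_comm _ _ _
    rw [this]

/-! ## Operators on `U ⊗ U` -/

/-- multiplication map -/
def mu : U K q ⊗[K] U K q →ₗ[K] U K q := TensorProduct.lift racl

theorem mu_tmul (a b : U K q) : mu (a ⊗ₜ b) = ract b a := by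
  simp [mu, racl_apply]

/-- apply a functional to the second slot -/
def idf (φ : U K q →ₗ[K] K) : U K q ⊗[K] U K q →ₗ[K] U K q :=
  TensorProduct.lift (LinearMap.mk₂ K (fun a b => φ b • a) (fun a a' b => smul_add _ _ _)
    (fun c a b => smul_comm _ _ _) (fun a b b' => by rw [map_add, add_smul])
    (fun c a b => by rw [map_smul, smul_assoc]))

theorem idf_tmul (φ : U K q →ₗ[K] K) (a b : U K q) : idf φ (a ⊗ₜ b) = φ b • a := by
  simp [idf]

/-- apply a functional to the first slot -/
def lam (φ : U K q →ₗ[K] K) : U K q ⊗[K] U K q →ₗ[K] U K q :=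
  TensorProduct.lift (LinearMap.mk₂ K (fun a b => φ a • b)
    (fun a a' b => by rw [map_add, add_smul])
    (fun c a b => by rw [map_smul, smul_assoc]) (fun a b b' => smul_add _ _ _)
    (fun c a b => smul_comm _ _ _))

theorem lam_tmul (φ : U K q →ₗ[K] K) (a b : U K q) : lam φ (a ⊗ₜ b) = φ a • b := by
  simp [lam]

/-- the operators `rho j` -/
def rho (j : Bool) : U K q ⊗[K] U K q →ₗ[K] U K q ⊗[K] U K q :=
  TensorProduct.map (LinearMap.mulRight K (gen K q j)) LinearMap.id
    + TensorProduct.map (tau (!j)).toLinearMap (Nop j)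
    - TensorProduct.map (tau j).toLinearMap (LinearMap.mulLeft K (gen K q j))

theorem rho_tmul (j : Bool) (a b : U K q) : rho j (a ⊗ₜ b) =
    (a * gen K q j) ⊗ₜ b + (tau (!j) a) ⊗ₜ (tau (!j) b * gen K q j)
      - (tau j a) ⊗ₜ (gen K q j * b) := by
  simp [rho, Nop_apply]

def rT (k : Bool) : U K q ⊗[K] U K q →ₗ[K] U K q ⊗[K] U K q :=
  TensorProduct.map LinearMap.id (r k)

theorem rT_tmul (k : Bool) (a b : U K q) : rT k (a ⊗ₜ b) = a ⊗ₜ (r k b) := by
  simp [rT]

def scT (c : Bool → K) : U K q ⊗[K] U K q →ₗ[K] U K q ⊗[K] U K q :=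
  TensorProduct.map (sc c).toLinearMap (sc c).toLinearMap

theorem scT_tmul (c : Bool → K) (a b : U K q) : scT c (a ⊗ₜ b) = (sc c a) ⊗ₜ (sc c b) := by
  simp [scT]

theorem idf_rho_eps (j : Bool) (X : U K q ⊗[K] U K q) :
    idf eps.toLinearMap (rho j X) = idf eps.toLinearMap X * gen K q j := by
  induction X using TensorProduct.induction_on with
  | zero => simp
  | tmul a b =>
    rw [rho_tmul, map_sub, map_add, idf_tmul, idf_tmul, idf_tmul, idf_tmul]
    simp
  | add x y hx hy => rw [map_add, map_add, map_add, hx, hy, add_mul]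

theorem rT_rho (k j : Bool) (X : U K q ⊗[K] U K q) :
    rT k (rho j X) = rho j (rT k X) +
      (if k = j then scT (pp q (!k)) X - scT (pp q k) X else 0) := by
  induction X using TensorProduct.induction_on with
  | zero => simp
  | tmul a b =>
    have h1 : r k (tau (!j) b) = pp q (!j) k • tau (!j) (r k b) := r_sc _ _ _
    have h2 : pp q (!j) k * pp q k j = 1 := by
      rw [mul_comm, pp_comm k j]; exact pp_mul j k
    rw [rho_tmul, map_sub, map_add, rT_tmul, rT_tmul, rT_tmul, rT_tmul, rho_tmul, r_mul, r_mul,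
      r_gen, tau_gen, scT_tmul, scT_tmul, h1, mul_smul_comm, smul_mul_assoc, smul_smul,
      mul_comm (pp q k j), h2, one_smul]
    by_cases h : k = j
    · subst h
      simp only [if_true, mul_one, one_mul, TensorProduct.tmul_add]
      show _ = _ + ((tau (!k) a) ⊗ₜ (tau (!k) b) - (tau k a) ⊗ₜ (tau k b))
      abel
    · simp only [if_neg h, mul_zero, zero_mul, zero_add, add_zero]
  | add x y hx hy =>
    rw [map_add, map_add, hx, hy, map_add, map_add, map_add, map_add]
    split
    · abel
    · abel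

theorem idf_rT (φ : U K q →ₗ[K] K) (k : Bool) (X : U K q ⊗[K] U K q) :
    idf (φ ∘ₗ r k) X = idf φ (rT k X) := by
  induction X using TensorProduct.induction_on with
  | zero => simp
  | tmul a b => rw [rT_tmul, idf_tmul, idf_tmul]; rfl
  | add x y hx hy => rw [map_add, map_add, map_add, hx, hy]

/-- the functionals `eps ∘ r_w` -/
def ph (K : Type u) [Field K] (q : K) [NeZero q] (w : List Bool) : U K q →ₗ[K] K :=
  eps.toLinearMap ∘ₗ rw' w

theorem ph_apply (w : List Bool) (u : U K q) : ph K q w u = eps (rw' w u) := rfl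

theorem idf_scT (w : List Bool) (c : Bool → K) (X : U K q ⊗[K] U K q) :
    idf (ph K q w) (scT c X) = (w.map c).prod • sc c (idf (ph K q w) X) := by
  induction X using TensorProduct.induction_on with
  | zero => simp
  | tmul a b =>
    rw [scT_tmul, idf_tmul, idf_tmul, ph_apply, ph_apply, rw'_sc, map_smul, map_smul, eps_sc,
      smul_assoc]
  | add x y hx hy => rw [map_add, map_add, map_add, hx, hy, map_add, smul_add]

theorem lam_rho (φ : U K q →ₗ[K] K) (j : Bool) (X : U K q ⊗[K] U K q) :
    lam φ (rho j X) = lam (φ ∘ₗ LinearMap.mulRight K (gen K q j)) X +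
      tau (!j) (lam (φ ∘ₗ (tau (!j)).toLinearMap) X) * gen K q j -
      gen K q j * lam (φ ∘ₗ (tau j).toLinearMap) X := by
  induction X using TensorProduct.induction_on with
  | zero => simp
  | tmul a b =>
    rw [rho_tmul, map_sub, map_add, lam_tmul, lam_tmul, lam_tmul, lam_tmul, lam_tmul, lam_tmul,
      map_smul, smul_mul_assoc, mul_smul_comm]
    rfl
  | add x y hx hy =>
    simp only [map_add, hx, hy, add_mul, mul_add]
    abel

theorem mu_rho (j : Bool) (X : U K q ⊗[K] U K q) :
    mu (rho j X) = tau (!j) (tau (!j) (mu X)) * gen K q j := by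
  induction X using TensorProduct.induction_on with
  | zero => simp
  | tmul a b =>
    have h1 : tau (!j) (ract b a) = ract (tau (!j) b) (tau (!j) a) := sc_ract _ _ _
    rw [rho_tmul, map_sub, map_add, mu_tmul, mu_tmul, mu_tmul, mu_tmul, ract_mul, ract_mul,
      ract_gen, ract_gen, tau_not_tau, h1]
    abel
  | add x y hx hy =>
    simp only [map_add, hx, hy, add_mul]

theorem ph_lam (φ ψ : U K q →ₗ[K] K) (X : U K q ⊗[K] U K q) : ψ (lam φ X) = φ (idf ψ X) := by
  induction X using TensorProduct.induction_on with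
  | zero => simp
  | tmul a b => rw [lam_tmul, idf_tmul, map_smul, map_smul, smul_eq_mul, smul_eq_mul, mul_comm]
  | add x y hx hy => rw [map_add, map_add, map_add, map_add, hx, hy]

theorem eq_zero_of_lam (X : U K q ⊗[K] U K q) (h : ∀ φ : U K q →ₗ[K] K, lam φ X = 0) : X = 0 := by
  classical
  let ℬ := Module.Basis.ofVectorSpace K (U K q)
  apply (TensorProduct.equivFinsuppOfBasisLeft (N := U K q) ℬ).injective
  rw [map_zero]
  ext i
  have h1 : ∀ Y : U K q ⊗[K] U K q,
      TensorProduct.equivFinsuppOfBasisLeft (N := U K q) ℬ Y i = lam (ℬ.coord i) Y := by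
    intro Y
    induction Y using TensorProduct.induction_on with
    | zero => simp
    | tmul a b =>
      rw [TensorProduct.equivFinsuppOfBasisLeft_apply_tmul_apply, lam_tmul]
      rfl
    | add x y hx hy => rw [map_add, map_add, Finsupp.add_apply, hx, hy]
  rw [h1, h]
  rfl

/-! ## The Casimir argument -/

def Cas (X : U K q ⊗[K] U K q) (u : U K q) : Prop := ∀ w, idf (ph K q w) X = Fw w u

def Cond (s : ℕ) (X : U K q ⊗[K] U K q) : Prop := ∀ φ : U K q →ₗ[K] K, lam φ X ∈ W K q s

theorem Cas_rT {X : U K q ⊗[K] U K q} {u : U K q} (h : Cas X u) (k : Bool) :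
    Cas (rT k X) (F k u) := by
  intro w
  rw [← idf_rT]
  exact h (k :: w)

theorem Cas_rho (j : Bool) {X : U K q ⊗[K] U K q} {u : U K q} (h : Cas X u) :
    Cas (rho j X) (u * gen K q j) := by
  intro w
  induction w generalizing X u with
  | nil =>
    show idf eps.toLinearMap (rho j X) = u * gen K q j
    rw [idf_rho_eps]
    congr 1
    exact h []
  | cons k w ih =>
    show idf (ph K q w ∘ₗ r k) (rho j X) = Fw w (F k (u * gen K q j))
    rw [idf_rT, rT_rho, map_add, ih (Cas_rT h k), F_mul_gen, map_add]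
    congr 1
    split
    · rw [map_sub, map_sub, idf_scT, idf_scT, h w]
      have h1 : ∀ i, Fw w (tau i u) = (w.map (pp q i)).prod • sc (pp q i) (Fw w u) :=
        fun i => Fw_sc _ _ _
      rw [h1, h1]
    · rw [map_zero, map_zero]

theorem Cas_one : Cas ((1 : U K q) ⊗ₜ[K] (1 : U K q)) 1 := by
  intro w
  rw [idf_tmul]
  rcases w with _ | ⟨k, w⟩
  · simp [ph_apply]
  · rw [ph_apply, rw'_cons, r_one, map_zero, map_zero, zero_smul, Fw_cons, F_one, map_zero]

theorem Cond_rho {s : ℕ} (j : Bool) {X : U K q ⊗[K] U K q} (h : Cond s X) :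
    Cond (s + 1) (rho j X) := by
  intro φ
  rw [lam_rho]
  exact Submodule.sub_mem _ (Submodule.add_mem _ (W_mono (Nat.le_succ s) (h _))
    (W_mul_gen (sc_W (h _) _) j)) (gen_mul_W (h _) j)

/-- exponent -/
def ff (m n : ℕ) : ℤ := (m + n : ℤ) - (m - n : ℤ) ^ 2

theorem casimir_word (w : List Bool) : ∃ X : U K q ⊗[K] U K q, Cas X (pw K q w) ∧
    Cond (w.length - 1) X ∧
    mu X = (q ^ 2) ^ (ff (w.count true) (w.count false)) • pw K q w ∧
    (w = [] → X = 1 ⊗ₜ 1) := by
  have hq : q ≠ 0 := NeZero.ne q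
  have hQ : q ^ 2 ≠ 0 := pow_ne_zero _ hq
  induction w with
  | nil =>
    refine ⟨1 ⊗ₜ 1, Cas_one, ?_, ?_, fun _ => rfl⟩
    · intro φ
      rw [lam_tmul]
      exact Submodule.smul_mem _ _ (one_mem_W _)
    · rw [mu_tmul, ract_one]
      simp [pw, ff]
  | cons j w ih =>
    obtain ⟨X, h1, h2, h3, h4⟩ := ih
    refine ⟨rho j X, Cas_rho j h1, ?_, ?_, by simp⟩
    · rcases w with _ | ⟨k, w⟩
      · rw [h4 rfl, rho_tmul, map_one, map_one, one_mul, mul_one, add_sub_cancel_right]
        intro φ
        rw [lam_tmul]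
        exact Submodule.smul_mem _ _ (one_mem_W _)
      · exact Cond_rho j h2
    · rw [mu_rho, h3, map_smul, map_smul]
      have h5 : ∀ i, tau i (pw K q w) = (pp q i true ^ w.count true * pp q i false ^ w.count false) •
        pw K q w := fun i => sc_pw _ _
      rw [h5, map_smul, h5, smul_smul, smul_smul, smul_mul_assoc, pw]
      congr 1
      have e1 : (q⁻¹) ^ 2 = (q ^ 2)⁻¹ := by rw [inv_pow]
      cases j
      · simp only [Bool.not_false, pp, if_true, Bool.true_eq_false, if_false, e1,
          List.count_cons_self, ne_eq, Bool.false_eq_true, not_false_eq_true,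
          List.count_cons_of_ne]
        rw [← zpow_natCast (q ^ 2), ← zpow_natCast (q ^ 2)⁻¹, inv_zpow', ← zpow_add₀ hQ,
          ← zpow_add₀ hQ, ← zpow_add₀ hQ]
        congr 1
        simp only [ff]
        push_cast
        ring
      · simp only [Bool.not_true, pp, if_true, Bool.false_eq_true, if_false, e1,
          List.count_cons_self, ne_eq, Bool.true_eq_false, not_false_eq_true,
          List.count_cons_of_ne]
        rw [← zpow_natCast (q ^ 2), ← zpow_natCast (q ^ 2)⁻¹, inv_zpow', ← zpow_add₀ hQ,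
          ← zpow_add₀ hQ, ← zpow_add₀ hQ]
        congr 1
        simp only [ff]
        push_cast
        ring

theorem casimir_gr {m n s : ℕ} (hs : m + n = s + 1) {v : U K q} (hv : v ∈ gr K q m n) :
    ∃ X : U K q ⊗[K] U K q, Cas X v ∧ Cond s X ∧ mu X = (q ^ 2) ^ (ff m n) • v := by
  induction hv using Submodule.span_induction with
  | mem x hx =>
    obtain ⟨w, rfl, rfl, rfl⟩ := hx
    obtain ⟨X, h1, h2, h3, -⟩ := casimir_word (K := K) (q := q) w
    refine ⟨X, h1, ?_, h3⟩
    rw [count_add] at hs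
    rwa [hs, Nat.add_sub_cancel] at h2
  | zero =>
    refine ⟨0, ?_, ?_, ?_⟩
    · intro w; simp
    · intro φ; rw [map_zero]; exact Submodule.zero_mem _
    · simp
  | add x y _ _ hx hy =>
    obtain ⟨X, h1, h2, h3⟩ := hx
    obtain ⟨Y, g1, g2, g3⟩ := hy
    refine ⟨X + Y, ?_, ?_, ?_⟩
    · intro w; rw [map_add, map_add, h1 w, g1 w]
    · intro φ; rw [map_add]; exact Submodule.add_mem _ (h2 φ) (g2 φ)
    · rw [map_add, h3, g3, smul_add]
  | smul a x _ hx =>
    obtain ⟨X, h1, h2, h3⟩ := hx
    refine ⟨a • X, ?_, ?_, ?_⟩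
    · intro w; rw [map_smul, map_smul, h1 w]
    · intro φ; rw [map_smul]; exact Submodule.smul_mem _ _ (h2 φ)
    · rw [map_smul, h3, smul_comm]

/-- main step of the Casimir argument -/
theorem casimir_zero (hroot : ∀ n : ℕ, 0 < n → q ^ n ≠ 1) {m s : ℕ} (hs : m + m = s + 1)
    (hND : ∀ b ∈ W K q s, (∀ w, ph K q w b = 0) → b = 0)
    {v : U K q} (hv : v ∈ gr K q m m) (hl : ∀ k, l k v = 0) (hr : ∀ k, r k v = 0) : v = 0 := by
  obtain ⟨X, h1, h2, h3⟩ := casimir_gr hs hv
  have hF : ∀ k, F k v = 0 := by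
    intro k
    rw [F_apply, hl, hr, map_zero, sub_zero]
  have hX : X - v ⊗ₜ 1 = 0 := by
    apply eq_zero_of_lam
    intro φ
    apply hND
    · rw [map_sub, lam_tmul]
      exact Submodule.sub_mem _ (h2 φ) (Submodule.smul_mem _ _ (one_mem_W s))
    · intro w
      rw [ph_lam]
      have : idf (ph K q w) (X - v ⊗ₜ 1) = 0 := by
        rw [map_sub, h1 w, idf_tmul]
        rcases w with _ | ⟨k, w⟩
        · simp [ph_apply]
        · rw [Fw_cons, hF, map_zero, ph_apply, rw'_cons, r_one, map_zero, map_zero, zero_smul,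
            sub_zero]
      rw [this, map_zero]
  have hX' : X = v ⊗ₜ 1 := sub_eq_zero.1 hX
  rw [hX', mu_tmul, ract_one] at h3
  have h4 : ff m m = ((s + 1 : ℕ) : ℤ) := by
    rw [← hs]; simp [ff]
  rw [h4, zpow_natCast, ← pow_mul] at h3
  have h5 : (q ^ (2 * (s + 1)) - 1) • v = 0 := by
    rw [sub_smul, one_smul, ← h3, sub_self]
  exact (smul_eq_zero.1 h5).resolve_left (sub_ne_zero.2 (hroot _ (by omega)))

/-! ## Nondegeneracy -/

/-- the radical -/
def Rad (K : Type u) [Field K] (q : K) [NeZero q] : Submodule K (U K q) where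
  carrier := {b | ∀ w, ph K q w b = 0}
  zero_mem' := fun w => map_zero _
  add_mem' := fun ha hb w => by rw [map_add, ha w, hb w, add_zero]
  smul_mem' := fun c a ha w => by rw [map_smul, ha w, smul_zero]

theorem Rad_sc (c : Bool → K) (hc : ∀ i, c i ≠ 0) (v : U K q) (hv : v ∈ Rad K q) :
    sc c v ∈ Rad K q := by
  intro w
  rw [ph_apply, rw'_sc, map_smul, eps_sc]
  have : eps (rw' w v) = 0 := hv w
  rw [this, smul_zero]

theorem Rad_r (k : Bool) {v : U K q} (hv : v ∈ Rad K q) : r k v ∈ Rad K q :=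
  fun w => hv (k :: w)

theorem Rad_l (k : Bool) {v : U K q} (hv : v ∈ Rad K q) : l k v ∈ Rad K q := by
  intro w
  rw [ph_apply, rw'_l, eps_l, ← rw'_append]
  exact hv (w ++ [k])

theorem tau_gr_true {m n : ℕ} {v : U K q} (hv : v ∈ gr K q m n) (h : n ≤ m) :
    tau true v = (q ^ 2) ^ (m - n) • v := by
  have hq : q ≠ 0 := NeZero.ne q
  unfold tau
  rw [sc_gr hv]
  congr 1
  simp only [pp, if_true, Bool.true_eq_false, if_false]
  obtain ⟨d, rfl⟩ := Nat.exists_eq_add_of_le h
  rw [Nat.add_sub_cancel_left, inv_pow, inv_pow]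
  field_simp
  ring

theorem tau_gr_false {m n : ℕ} {v : U K q} (hv : v ∈ gr K q m n) (h : m ≤ n) :
    tau false v = (q ^ 2) ^ (n - m) • v := by
  have hq : q ≠ 0 := NeZero.ne q
  unfold tau
  rw [sc_gr hv]
  congr 1
  simp only [pp, if_true, Bool.false_eq_true, if_false]
  obtain ⟨d, rfl⟩ := Nat.exists_eq_add_of_le h
  rw [Nat.add_sub_cancel_left, inv_pow, inv_pow]
  field_simp
  ring

theorem nondeg_aux (hroot : ∀ n : ℕ, 0 < n → q ^ n ≠ 1) (s : ℕ) :
    ∀ b ∈ W K q s, (∀ w, ph K q w b = 0) → b = 0 := by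
  induction s with
  | zero =>
    intro b hb h
    obtain ⟨c, rfl⟩ := W_zero hb
    have := h []
    rw [ph_apply, rw'_nil, map_smul, map_one, smul_eq_mul, mul_one] at this
    rw [this, zero_smul]
  | succ s ih =>
    intro b hb h
    obtain ⟨f, hf, rfl⟩ := decomp hb
    have hmem : ∀ p ∈ idx (s + 1), f p ∈ Rad K q :=
      comp_mem hroot (Rad K q) Rad_sc f hf h
    apply Finset.sum_eq_zero
    rintro ⟨m, n⟩ hp
    have hR := hmem _ hp
    have hgr := hf (m, n)
    have hle := mem_idx.1 hp
    simp only at hle hgr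
    rcases Nat.lt_or_ge (m + n) (s + 1) with hlt | hge
    · exact ih _ (W_mono (by omega) (gr_le_W m n hgr)) hR
    · have heq : m + n = s + 1 := by omega
      have hW : f (m, n) ∈ W K q (s + 1) := heq ▸ gr_le_W m n hgr
      have hl : ∀ k, l k (f (m, n)) = 0 := fun k => ih _ (l_W hW k) (Rad_l k hR)
      have hr : ∀ k, r k (f (m, n)) = 0 := fun k => ih _ (r_W hW k) (Rad_r k hR)
      rcases lt_trichotomy m n with h1 | h1 | h1
      · exact sl2_bound hroot false _ (n - m) (by omega) (tau_gr_false hgr h1.le) (hl _) (hr _)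
      · subst h1
        exact casimir_zero hroot heq ih hgr hl hr
      · exact sl2_bound hroot true _ (m - n) (by omega) (tau_gr_true hgr h1.le) (hl _) (hr _)

/-- nondegeneracy: an element killed by all `eps ∘ r_w` is zero. -/
theorem nondeg (hroot : ∀ n : ℕ, 0 < n → q ^ n ≠ 1) (b : U K q) (h : ∀ w, ph K q w b = 0) :
    b = 0 := by
  obtain ⟨s, hs⟩ := exhaust b
  exact nondeg_aux hroot s b hs h

/-! ## The center -/

/-- structure constants -/
def dc (q : K) (x : K) : ℕ → K
  | 0 => 0
  | k + 1 => dc q x k + (q ^ 2) ^ k - x * ((q ^ 2)⁻¹) ^ k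

/-- `(q^2-1) dc (k+1) = (q^(2(k+1)) - 1)(1 - x q^(-2k))`. -/
theorem dc_eq (x : K) (k : ℕ) : (q ^ 2 - 1) * dc q x (k + 1) =
    ((q ^ 2) ^ (k + 1) - 1) * (1 - x * ((q ^ 2)⁻¹) ^ k) := by
  have hq : q ≠ 0 := NeZero.ne q
  induction k with
  | zero => simp [dc]
  | succ k ih =>
    have h : dc q x (k + 1 + 1) = dc q x (k + 1) + (q ^ 2) ^ (k + 1) - x * ((q ^ 2)⁻¹) ^ (k + 1) :=
      rfl
    rw [h, mul_sub, mul_add, ih]
    rw [inv_pow, inv_pow]
    field_simp
    ring

/-- iterates of `l i` -/
def ln (i : Bool) : ℕ → U K q →ₗ[K] U K q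
  | 0 => LinearMap.id
  | n + 1 => l i ∘ₗ ln i n

theorem ln_succ (i : Bool) (n : ℕ) (u : U K q) : ln i (n + 1) u = l i (ln i n u) := rfl

theorem ln_W (i : Bool) {s : ℕ} {u : U K q} (hu : u ∈ W K q s) : ln i (s + 1) u = 0 := by
  have h : ∀ k ≤ s, ln i k u ∈ W K q (s - k) := by
    intro k
    induction k with
    | zero => intro _; exact hu
    | succ k ih =>
      intro hk
      rw [ln_succ]
      apply l_W
      have := ih (by omega)
      rwa [show s - k = s - (k + 1) + 1 by omega] at this
  have h1 := h s le_rfl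
  rw [Nat.sub_self] at h1
  obtain ⟨c, hc⟩ := W_zero h1
  rw [ln_succ, hc, map_smul, l_one, smul_zero]

theorem tau_ln (i : Bool) (v : U K q) (x : K) (hv : tau i v = x • v) (k : ℕ) :
    tau i (ln i k v) = (x * ((q ^ 2)⁻¹) ^ k) • ln i k v := by
  have hq : q ≠ 0 := NeZero.ne q
  induction k with
  | zero => simp [ln, hv]
  | succ k ih =>
    have h1 : l i (tau i (ln i k v)) = pp q i i • tau i (l i (ln i k v)) := l_sc _ _ _
    rw [ih, map_smul, pp_self] at h1
    rw [ln_succ]
    have h2 : (q ^ 2)⁻¹ • (x * ((q ^ 2)⁻¹) ^ k) • l i (ln i k v) = tau i (l i (ln i k v)) := by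
      rw [h1, smul_smul, inv_mul_cancel₀ (pow_ne_zero _ hq), one_smul]
    rw [← h2, smul_smul]
    congr 1
    ring

theorem ln_rel (i : Bool) (v : U K q) (x : K) (hv : tau i v = x • v)
    (hc : v * gen K q i = gen K q i * v) (k : ℕ) :
    ln i (k + 1) v * gen K q i = (q ^ 2) ^ (k + 1) • (gen K q i * ln i (k + 1) v) +
      dc q x (k + 1) • ln i k v := by
  induction k with
  | zero =>
    have h := congrArg (l i) hc
    rw [l_mul, l_mul, l_gen, if_pos rfl, mul_one, one_mul, hv, tau_gen, pp_self,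
      smul_mul_assoc] at h
    rw [ln_succ]
    simp only [ln, LinearMap.id_apply, dc, pow_zero, mul_one, zero_add, pow_one]
    rw [eq_sub_of_add_eq h, sub_smul, one_smul]
    abel
  | succ k ih =>
    have h := congrArg (l i) ih
    rw [map_add, map_smul, map_smul, l_mul, l_mul, l_gen, if_pos rfl, mul_one, one_mul,
      tau_ln i v x hv, tau_gen, pp_self, smul_mul_assoc, ← ln_succ, ← ln_succ, smul_add,
      smul_smul, ← pow_succ] at h
    rw [eq_sub_of_add_eq h]
    have h2 : dc q x (k + 1 + 1) = dc q x (k + 1) + (q ^ 2) ^ (k + 1) - x * ((q ^ 2)⁻¹) ^ (k + 1) :=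
      rfl
    rw [h2, sub_smul, add_smul]
    abel

/-- For a nonzero element `v` commuting with `g_i` and with `tau_i v = x v`: `x = q^(2k)` where
`k` is maximal with `l_i^k v ≠ 0`. -/
theorem string (hroot : ∀ n : ℕ, 0 < n → q ^ n ≠ 1) (i : Bool) (v : U K q) (x : K)
    (hv : tau i v = x • v) (hc : v * gen K q i = gen K q i * v) (hv0 : v ≠ 0) :
    ∃ k : ℕ, x = (q ^ 2) ^ k ∧ ln i (k + 1) v = 0 := by
  have hq : q ≠ 0 := NeZero.ne q
  obtain ⟨s, hs⟩ := exhaust v
  have hex : ∃ n, ln i n v = 0 := ⟨s + 1, ln_W i hs⟩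
  classical
  have hspec := Nat.find_spec hex
  have hmin := fun m => Nat.find_min (H := hex) (m := m)
  rcases hn : Nat.find hex with _ | k
  · rw [hn] at hspec
    exact absurd hspec hv0
  · rw [hn] at hspec
    have hk : ln i k v ≠ 0 := hmin k (by omega)
    have h := ln_rel i v x hv hc k
    rw [hspec, zero_mul, mul_zero, smul_zero, zero_add] at h
    have h1 : dc q x (k + 1) = 0 := (smul_eq_zero.1 h.symm).resolve_right hk
    have h2 := dc_eq (q := q) x k
    rw [h1, mul_zero] at h2
    refine ⟨k, ?_, hspec⟩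
    rcases mul_eq_zero.1 h2.symm with h3 | h3
    · rw [← pow_mul] at h3
      exact absurd (sub_eq_zero.1 h3) (hroot _ (by omega))
    · have h4 : x * ((q ^ 2)⁻¹) ^ k = 1 := (sub_eq_zero.1 h3).symm
      rw [inv_pow] at h4
      field_simp at h4
      exact h4

theorem central_gr (hroot : ∀ n : ℕ, 0 < n → q ^ n ≠ 1) {m n : ℕ} (hmn : 0 < m + n) {v : U K q}
    (hv : v ∈ gr K q m n) (hc : ∀ i, v * gen K q i = gen K q i * v) : v = 0 := by
  have hq : q ≠ 0 := NeZero.ne q
  by_contra hv0
  -- weights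
  have ht : tau true v = ((q ^ 2) ^ m * ((q⁻¹) ^ 2) ^ n) • v := sc_gr hv _
  have hf : tau false v = (((q⁻¹) ^ 2) ^ m * (q ^ 2) ^ n) • v := sc_gr hv _
  obtain ⟨a, ha, ha0⟩ := string hroot true v _ ht (hc true) hv0
  obtain ⟨b, hb, hb0⟩ := string hroot false v _ hf (hc false) hv0
  have h1 : q ^ (2 * m) = q ^ (2 * (a + n)) := by
    rw [inv_pow, inv_pow] at ha
    field_simp at ha
    rw [← pow_mul, ← pow_mul, ← pow_mul] at ha
    rw [ha, mul_add, pow_add]
    try ring
  have h2 : q ^ (2 * n) = q ^ (2 * (b + m)) := by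
    rw [inv_pow, inv_pow] at hb
    field_simp at hb
    rw [← pow_mul, ← pow_mul, ← pow_mul] at hb
    rw [hb, mul_add, pow_add]
    try ring
  have h3 := pow_inj hroot h1
  have h4 := pow_inj hroot h2
  have ha' : a = 0 := by omega
  have hb' : b = 0 := by omega
  subst ha'; subst hb'
  have hl : ∀ k, l k v = 0 := by
    intro k
    cases k
    · exact hb0
    · exact ha0
  apply hv0
  apply nondeg hroot
  intro w
  rcases List.eq_nil_or_concat w with rfl | ⟨w', k, rfl⟩
  · exact eps_gr hmn hv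
  · rw [List.concat_eq_append, ph_apply, rw'_append, ← eps_l, ← rw'_l, hl, map_zero, map_zero]

theorem center_sc (c : Bool → K) (hc : ∀ i, c i ≠ 0) (v : U K q)
    (hv : ∀ i, v * gen K q i = gen K q i * v) (i : Bool) :
    sc c v * gen K q i = gen K q i * sc c v := by
  have h := congrArg (sc c) (hv i)
  rw [map_mul, map_mul, sc_gen, mul_smul_comm, smul_mul_assoc] at h
  exact smul_right_injective _ (hc i) h

/-- elements commuting with the generators -/
def Cen (K : Type u) [Field K] (q : K) [NeZero q] : Submodule K (U K q) where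
  carrier := {v | ∀ i, v * gen K q i = gen K q i * v}
  zero_mem' := fun i => by rw [zero_mul, mul_zero]
  add_mem' := fun ha hb i => by rw [add_mul, mul_add, ha i, hb i]
  smul_mem' := fun c a ha i => by rw [smul_mul_assoc, mul_smul_comm, ha i]

theorem cen_scalar (hroot : ∀ n : ℕ, 0 < n → q ^ n ≠ 1) (v : U K q)
    (hv : ∀ i, v * gen K q i = gen K q i * v) : ∃ c : K, v = c • 1 := by
  obtain ⟨s, hs⟩ := exhaust v
  obtain ⟨f, hf, rfl⟩ := decomp hs
  have hmem : ∀ p ∈ idx s, f p ∈ Cen K q :=
    comp_mem hroot (Cen K q) (fun c hc v hv i => center_sc c hc v hv i) f hf hv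
  have h0 : ∑ p ∈ idx s, f p = f (0, 0) := by
    apply Finset.sum_eq_single_of_mem
    · rw [mem_idx]; simp
    · rintro ⟨m, n⟩ hp hne
      refine central_gr hroot ?_ (hf (m, n)) (hmem _ hp)
      by_contra h
      apply hne
      have h1 : m = 0 := by omega
      have h2 : n = 0 := by omega
      rw [h1, h2]
  rw [h0]
  exact gr_zero (hf (0, 0))
end

theorem center_U {K : Type u} [Field K] (q : K) (hq : q ≠ 0)
    (hroot : ∀ n : ℕ, 0 < n → q ^ n ≠ 1) :
    Subalgebra.center K (U K q) = ⊥ ∧ Function.Injective (algebraMap K (U K q)) := by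
  haveI : NeZero q := ⟨hq⟩
  constructor
  · rw [eq_bot_iff]
    intro v hv
    obtain ⟨c, hc⟩ := cen_scalar hroot v (fun i => (Subalgebra.mem_center_iff.1 hv _).symm)
    rw [hc, ← Algebra.algebraMap_eq_smul_one]
    exact Subalgebra.algebraMap_mem _ c
  · intro a b h
    have h1 := congrArg (eps (K := K) (q := q)) h
    rwa [AlgHom.commutes, AlgHom.commutes] at h1

/-- Let `K` be a field and `q ∈ K` nonzero and not a root of unity. The center of
`U^+ = RingQuot (SerreRel K q)` is `K 1` (and `1` generates a copy of `K`). -/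
theorem result {K : Type u} [Field K] (q : K) (hq : q ≠ 0)
    (hroot : ∀ n : ℕ, 0 < n → q ^ n ≠ 1) :
    Subalgebra.center K (RingQuot (SerreRel K q)) = ⊥ ∧
      Function.Injective (algebraMap K (RingQuot (SerreRel K q))) :=
  center_U q hq hroot

end
end Pool.Agent.Results.MP_cafee0_al.CenterTrivial
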